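import Pool.Agent.Helper10.UL.Final

/-!
# The section conjecture for 100 percent of the superelliptic curves over rational function fields

Let `F` be a finitely generated field of characteristic zero and `k = F(t₁, …, t_r)`, `r ≥ 2`, a
rational function field in at least two variables.  Let `d ≥ 3` and `m ≥ 1` be integers.

Consider the polynomials `f = ∑_{i ≤ d} a_i x^i` whose coefficients `a_i` are polynomials of degree at most
`m` in `t₁, …, t_r` with integral coefficients of absolute value at most `H`.  For all but
`C (2H + 1) ^ (N - 1)` of these `(2H + 1) ^ N` polynomials `f`: `f` is separable of degree `d`, and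

* for all `n` which are not prime to `d` the superelliptic curve `yⁿ = f(x)` over `k`, and every curve which
  maps onto it, has no Galois section (so it satisfies the section conjecture);
* for all `n ≥ 2` which do not divide `m` every Galois section of `yⁿ = f(x)` is geometric.

So `yⁿ = f(x)` satisfies the section conjecture for all `n`, except possibly for those `n` which are prime to `d` and
divide `m`.  For example all hyperelliptic curves `y² = f(x)` with `d` even are covered, for every `m`.
-/

universe u

namespace Pool.Agent.Results.MP_e66f84_ag.AllDegrees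

open Polynomial Pool.Agent.Helper91.Sect Pool.Agent.SC

/-- The exponents of the monomials of degree at most `m` in `r` variables. -/
abbrev Exponents (r m : ℕ) : Type := {p : Fin r → Fin (m + 1) // ∑ i, (p i : ℕ) ≤ m}

/-- The value at `t` of the polynomial with coefficients `a`. -/
noncomputable def value {k : Type u} [Field k] {r m : ℕ} (t : Fin r → k)
    (a : Exponents r m → ℤ) : k :=
  ∑ p : Exponents r m, (a p : k) * ∏ i, t i ^ (p.1 i : ℕ)

/-- The polynomial `∑_{i ≤ d} a_i(t) x^i`. -/
noncomputable def curve {k : Type u} [Field k] {r m d : ℕ} (t : Fin r → k)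
    (a : Fin (d + 1) × Exponents r m → ℤ) : k[X] :=
  ∑ i : Fin (d + 1), C (value t fun p => a (i, p)) * X ^ (i : ℕ)

/-- For all `n` which are not prime to `d` no curve which maps onto `yⁿ = f(x)` has a Galois section:
there is no Galois section of `K / k` if `K` contains elements `x` and `y` with `x` transcendental over `k`
and `yⁿ = f(x)`. -/
def NoSections {k : Type u} [Field k] (d : ℕ) (f : k[X]) : Prop :=
  ∀ n : ℕ, ¬ n.Coprime d →
    ∀ (K : Type u) [Field K] [Algebra k K] (x y : K), Transcendental k x → y ^ n = aeval x f →
    IsEmpty (GaloisSection k K)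

/-- For all `n ≥ 2` which do not divide `m` the curve `yⁿ = f(x)` satisfies the section conjecture: if `K` is its
function field, every Galois section of `K / k` is geometric. -/
def SatisfiesSC {k : Type u} [Field k] (m : ℕ) (f : k[X]) : Prop :=
  ∀ n : ℕ, 2 ≤ n → ¬ n ∣ m →
    ∀ (K : Type u) [Field K] [Algebra k K] (x y : K), Transcendental k x →
    IntermediateField.adjoin k {x, y} = ⊤ → y ^ n = aeval x f →
    ∀ s : GaloisSection k K, IsGeometric s

/-- **The section conjecture for 100 percent of the superelliptic curves.** -/
theorem result {F k : Type u} [Field F] [CharZero F] [Field k] [Algebra F k]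
    -- `F` is finitely generated, and `k = F(t₁, …, t_r)` with at least two variables
    (hF : ∃ S : Finset F, Subfield.closure (S : Set F) = ⊤) {r : ℕ} (hr : 2 ≤ r)
    {t : Fin r → k} (ht : AlgebraicIndependent F t)
    (htop : IntermediateField.adjoin F (Set.range t) = ⊤)
    {d m : ℕ} (hd : 3 ≤ d) (hm : 1 ≤ m) :
    ∃ C : ℕ, ∀ H : ℕ,
      {a : Fin (d + 1) × Exponents r m → ℤ | (∀ i, |a i| ≤ H) ∧
        ¬ ((curve t a).natDegree = d ∧ (curve t a).Separable ∧
          NoSections d (curve t a) ∧ SatisfiesSC m (curve t a))}.ncard ≤
        C * (2 * H + 1) ^ (Fintype.card (Fin (d + 1) × Exponents r m) - 1) := by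
  obtain ⟨r, rfl⟩ := Nat.exists_eq_add_of_le' hr
  obtain ⟨C₁, h₁⟩ := UL.no_sections_percent hF ht htop hd hm
  obtain ⟨C₂, h₂⟩ := Pool.Agent.HP.superelliptic_percent hF ht htop hd hm
  refine ⟨C₁ + C₂, fun H => ?_⟩
  rw [add_mul]
  refine le_trans ?_ (Nat.add_le_add (h₁ H) (h₂ H))
  refine le_trans (Set.ncard_le_ncard ?_ ?_) (Set.ncard_union_le _ _)
  · rintro a ⟨ha, hbad⟩
    by_cases hA : UL.HasNoSections d (Pool.Agent.HP.curvePol t a)
    · right
      refine ⟨ha, fun hB => hbad ?_⟩
      exact ⟨hA.1, hA.2.1, hA.2.2, hB.2.2⟩
    · exact Or.inl ⟨ha, hA⟩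
  · exact (UL.finite_box H _).union (UL.finite_box H _)

end Pool.Agent.Results.MP_e66f84_ag.AllDegrees
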