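import Pool.Agent.Helper10.UT.FinS

/-!
# Galois sections of superelliptic curves with coefficients in a linear system, uniformly in the field of constants

Let `F₀ ⊂ k₀` be fields of characteristic zero, `k₀` finitely generated.  Let `w_0, …, w_m` be elements of `k₀` such
that one of the quotients `w_i / w_l` is transcendental over `F₀`.  For example `k₀` is the function field of a
variety over `F₀` and `w_0, …, w_m` is a basis of a Riemann-Roch space `L(D)` of dimension at least two, or
`k₀ = F₀(t_1, …, t_r)` and the `w_e` are the monomials of degree at most `m ≥ 1`.  Let `d ≥ 3`.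

Then there is ONE polynomial `Q(a, X)`, with coefficients in `F₀`, in `X` and in the `(d + 1)(m + 1)` variables
`a = (a_{i,e})`, which has no root in the field of rational functions `F̄₀(a)`, such that the following holds for all
finitely generated extension fields `F` of `F₀` and all composites `k = F k₀` of `F` and `k₀` over `F₀` in which `F`
and `k₀` are algebraically free over `F₀` (for `k₀ = F₀(t_1, …, t_r)`: for all `F` and for `k = F(t_1, …, t_r)`).
Let `a` be any point over `F` and let `f = ∑_{i ≤ d} (∑_e a_{i,e} w_e) x^i` be the polynomial with coefficients in the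
linear system.

* If `Q(a, X)` has no root in `F`, `f` is separable of degree `d`.
* Let `k'` be any finite extension of `k` and let `E` be a subfield of `k'` which is algebraic over `F`, such that
  `Q(a, X)` has no root in `E`.  Let `n` be any natural number.  If the curve `yⁿ = f(x)` over `k'`, or some curve
  over `k'` with a nonconstant map to it, has a Galois section, then the degree of `k'` over `E k` is divisible by
  `gcd(n, d)`.

The points `a` over `F` for which `Q(a, X)` has a root in `F` (or in a given finite extension `E` of `F`) form a thin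
set in the sense of Serre.  So the theorem says that the curves outside one thin set, which is the same one for all
fields `F`, have sections only over extensions `k'` of `k` of degree divisible by `gcd(n, d)`.

If two quotients `w_i / w_l`, `w_j / w_l` are algebraically independent over `F₀`, the polynomial `Q` does not depend
on `X`: the exceptional curves are in one hypersurface for all fields `F`, and for `E` one can take the algebraic
closure of `F` in `k'`.

The divisibility is the best possible one: the curve has a point at infinity with values in `k(a_d^(1/g))`,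
`g = gcd(n, d)`, where `a_d` is the leading coefficient of `f`.
-/

universe u

namespace Pool.Agent.Results.MP_e66f84_ag.LinearSystemsUniform

open Polynomial Pool.Agent.Helper91.Sect

/-- The polynomial `∑_{i ≤ d} a_i x^i` with the coefficients `a_i = ∑_{e ≤ m} a_{i,e} w_e`. -/
noncomputable def curve {F k : Type u} [Field F] [Field k] [Algebra F k] {d m : ℕ}
    (w : Fin (m + 1) → k) (a : Fin (d + 1) × Fin (m + 1) → F) : k[X] :=
  ∑ i : Fin (d + 1), C (∑ e : Fin (m + 1), algebraMap F k (a (i, e)) * w e) * X ^ (i : ℕ)

/-- The field `k` is a composite of `F` and `k₀` over `F₀`, in which `F` and `k₀` are algebraically free over `F₀`: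
it is generated by `F` and `k₀`, and elements of `k₀` which are algebraically independent over `F₀` are
algebraically independent over `F`. -/
def FreeComposite (F₀ k₀ F k : Type u) [Field F₀] [Field k₀] [Field F] [Field k] [Algebra F₀ k₀]
    [Algebra F k] [Algebra k₀ k] : Prop :=
  IntermediateField.adjoin F (Set.range (algebraMap k₀ k)) = ⊤ ∧
    ∀ (n : ℕ) (x : Fin n → k₀), AlgebraicIndependent F₀ x →
      AlgebraicIndependent F fun i => algebraMap k₀ k (x i)

/-- The polynomial `Q(a, X)`, whose coefficients are polynomials over `F₀` in the variables `a`, has no root in the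
field of rational functions in these variables over the algebraic closure of `F₀`. -/
def NoRoot {F₀ : Type u} [Field F₀] {I : Type} (Q : (MvPolynomial I F₀)[X]) : Prop :=
  ∀ r : FractionRing (MvPolynomial I (AlgebraicClosure F₀)),
    eval₂ ((algebraMap (MvPolynomial I (AlgebraicClosure F₀))
      (FractionRing (MvPolynomial I (AlgebraicClosure F₀)))).comp
        (MvPolynomial.map (algebraMap F₀ (AlgebraicClosure F₀)))) r Q ≠ 0

/-- The polynomial `Q(a, X)` in one variable `X` over `F`, for a point `a` over `F`. -/
noncomputable def value {F₀ F : Type u} [Field F₀] [Field F] [Algebra F₀ F] {I : Type}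
    (Q : (MvPolynomial I F₀)[X]) (a : I → F) : F[X] :=
  Q.map (MvPolynomial.aeval a : MvPolynomial I F₀ →ₐ[F₀] F).toRingHom

/-- For all `n`, all finite extensions `k'` of `k`, all subfields `E` of `k'` which are algebraic over `F` and in
which the polynomial `R` has no root, and all curves over `k'` which map onto `yⁿ = f(x)`: if there is a Galois
section, then `gcd n d` divides the degree of `k'` over the field generated by `k` and `E`.  Here a curve over `k'`
which maps onto `yⁿ = f(x)` is given by its function field `K` and by elements `x`, `y` of `K` with `x`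
transcendental over `k'` and `yⁿ = f(x)`; `K` may be any extension field of `k'`. -/
def SectionDegrees {F k : Type u} [Field F] [Field k] [Algebra F k] (R : F[X]) (d : ℕ)
    (f : k[X]) : Prop :=
  ∀ (n : ℕ) (k' : Type u) [Field k'] [Algebra k k'] [Algebra F k'] [IsScalarTower F k k'],
    FiniteDimensional k k' →
    ∀ E : IntermediateField F k', (∀ z ∈ E, IsAlgebraic F z) → (∀ z ∈ E, aeval z R ≠ 0) →
    ∀ (K : Type u) [Field K] [Algebra k' K] (x y : K), Transcendental k' x →
      y ^ n = aeval x (f.map (algebraMap k k')) → Nonempty (GaloisSection k' K) →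
      Nat.gcd n d ∣ Module.finrank (IntermediateField.adjoin k (E : Set k')) k'

/-- **One thin set for all fields of constants: the degrees of the fields over which a superelliptic curve with
coefficients in a linear system has a Galois section.** -/
theorem result {F₀ k₀ : Type u} [Field F₀] [CharZero F₀] [Field k₀] [Algebra F₀ k₀]
    -- `k₀` is a finitely generated field
    (hk₀ : ∃ S : Finset k₀, Subfield.closure (S : Set k₀) = ⊤)
    -- one of the quotients of the `w_e` is transcendental over `F₀`
    {m : ℕ} {w : Fin (m + 1) → k₀} (hw : ∃ i l, Transcendental F₀ (w i / w l))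
    {d : ℕ} (hd : 3 ≤ d) :
    -- there is one polynomial `Q` over `F₀`, without root
    ∃ Q : (MvPolynomial (Fin (d + 1) × Fin (m + 1)) F₀)[X], NoRoot Q ∧
      -- which does not depend on `X`, if two of the quotients are algebraically independent over `F₀`
      ((∃ i j l, AlgebraicIndependent F₀ ![w i / w l, w j / w l]) → Q.natDegree = 0) ∧
      -- such that the following holds for all composites `k = F k₀`
      ∀ (F k : Type u) [Field F] [Field k] [Algebra F₀ F] [Algebra F₀ k] [Algebra F k] [Algebra k₀ k]
        [IsScalarTower F₀ F k] [IsScalarTower F₀ k₀ k],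
        (∃ S : Finset F, Subfield.closure (S : Set F) = ⊤) → FreeComposite F₀ k₀ F k →
        ∀ a : Fin (d + 1) × Fin (m + 1) → F,
          ((∀ z : F, eval z (value Q a) ≠ 0) →
            (curve (fun e => algebraMap k₀ k (w e)) a).natDegree = d ∧
            (curve (fun e => algebraMap k₀ k (w e)) a).Separable) ∧
          SectionDegrees (value Q a) d (curve (fun e => algebraMap k₀ k (w e)) a) := by
  obtain ⟨i, l, hT⟩ := hw
  obtain ⟨Q, hQ, hB, h⟩ := Pool.Agent.UT.geoE (Pool.Agent.UT.u_any (F₀ := F₀) hk₀ hT
    (B := ∃ i j l, AlgebraicIndependent F₀ ![w i / w l, w j / w l]) (fun b => b) hd)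
  refine ⟨Q, hQ, hB, ?_⟩
  intro F k _ _ _ _ _ _ _ _ hF hfree a
  obtain ⟨h1, h2⟩ := h F k hF hfree.1 (fun {n x} hx => hfree.2 n x hx) a
  refine ⟨fun hroot => ?_, ?_⟩
  · have h3 : Pool.Agent.SLS.HasNoSectionsS d (curve (fun e => algebraMap k₀ k (w e)) a) :=
      not_not.1 (h1 hroot)
    exact ⟨h3.1, h3.2.1⟩
  intro n k' _ _ _ _ hfin E hE hroot K _ _ x y hx hxy hsec
  obtain ⟨F'', _, _, _, φ, hk₀'', hφ, h4⟩ := h2 k' hfin E hE hroot
  rw [not_not] at h4
  by_contra hdeg
  refine (not_isEmpty_iff.2 hsec) (h4.2.2 n k' inferInstance hdeg K x y hx ?_)
  rw [hxy]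
  congr 1
  have h5 : _root_.RR.curveW
      (⇑(algebraMap k₀ (IntermediateField.adjoin k (E : Set k'))) ∘ w) (φ ∘ a) =
      (curve (fun e => algebraMap k₀ k (w e)) a).map (algebraMap k _) := by
    unfold _root_.RR.curveW curve
    rw [Polynomial.map_sum]
    refine Finset.sum_congr rfl fun i _ => ?_
    have h6 : algebraMap k (IntermediateField.adjoin k (E : Set k'))
        (∑ e, algebraMap F k (a (i, e)) * algebraMap k₀ k (w e)) =
        ∑ e, algebraMap F'' _ ((φ ∘ a) (i, e)) * (⇑(algebraMap k₀ _) ∘ w) e := by
      rw [map_sum]
      refine Finset.sum_congr rfl fun e _ => ?_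
      rw [map_mul, ← hφ, ← hk₀'']
      rfl
    rw [Polynomial.map_mul, Polynomial.map_pow, map_X, map_C, h6]
  rw [h5, Polynomial.map_map, ← IsScalarTower.algebraMap_eq]

end Pool.Agent.Results.MP_e66f84_ag.LinearSystemsUniform
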