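import Mathlib
import Pool.Agent.Helper10.TR.Fin4

set_option autoImplicit false

namespace Pool.Agent.Helper10.Keep.MovedCriticalLocus

open MvPolynomial

/-- `t` is a point of the quasi-affine variety `X`, the set of the zeros of `B` in `𝔸ᵐ` which are
not zeros of `D`. -/
def InX {m : ℕ} (B D : Set (MvPolynomial (Fin m) ℂ)) (t : Fin m → ℂ) : Prop :=
  (∀ g ∈ B, eval t g = 0) ∧ ∃ g ∈ D, eval t g ≠ 0

/-- The Jacobian determinant of the polynomial map `F` at the point `t`. -/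
noncomputable def jacobian {m : ℕ} (F : Fin m → MvPolynomial (Fin m) ℂ) (t : Fin m → ℂ) : ℂ :=
  (Matrix.of fun i j => eval t (pderiv j (F i))).det

/-- The automorphism `s` moves the critical locus of `F` on `X`: this locus lies in the union of
finitely many closed sets `C i`, defined over the field of algebraic numbers, such that for each `i`
no point of `X` lies on all conjugates `sʲ (C i)`, `j ≥ 0`. -/
def MovesCriticalLocus {m : ℕ} (s : ℂ ≃+* ℂ) (F : Fin m → MvPolynomial (Fin m) ℂ)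
    (B D : Set (MvPolynomial (Fin m) ℂ)) : Prop :=
  ∃ (k : ℕ) (C : Fin k → Set (MvPolynomial (Fin m) ℂ)),
    (∀ i, ∀ h ∈ C i, ∀ u, IsAlgebraic ℚ (coeff u h)) ∧
    (∀ t, InX B D t → jacobian F t = 0 → ∃ i, ∀ h ∈ C i, eval t h = 0) ∧
    ∀ i t, InX B D t → ∃ j : ℕ, ∃ h ∈ C i, eval t (map ((s : ℂ →+* ℂ) ^ j) h) ≠ 0

/-- `P r` is a polynomial in `t` and `x₁, ..., xᵣ`. -/
def IsTriangular {m n : ℕ} (P : Fin n → MvPolynomial (Fin m ⊕ Fin n) ℂ) : Prop :=
  ∀ r, ∀ s ∈ (P r).support, ∀ j, r < j → s (Sum.inr j) = 0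

/-- The polynomial `Pᵣ(t, x₁, ..., xᵣ₋₁; T)` in one variable `T`, at the point `y = (t, x)`. -/
noncomputable def fibre {m n : ℕ} (P : Fin n → MvPolynomial (Fin m ⊕ Fin n) ℂ)
    (y : Fin m ⊕ Fin n → ℂ) (r : Fin n) : Polynomial ℂ :=
  eval₂ Polynomial.C (fun w => if w = Sum.inr r then Polynomial.X else Polynomial.C (y w)) (P r)

/-- The map `Φ(t, x) = (F(t), P₁(t, x), ..., Pₙ(t, x))`. -/
noncomputable def Phi {m n : ℕ} (F : Fin m → MvPolynomial (Fin m) ℂ)
    (P : Fin n → MvPolynomial (Fin m ⊕ Fin n) ℂ) (y : Fin m ⊕ Fin n → ℂ) : Fin m ⊕ Fin n → ℂ :=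
  Sum.elim (fun i => eval (fun j => y (Sum.inl j)) (F i)) fun r => eval y (P r)

/-- The length of the orbit of `(x₁, ..., xᵣ)` under the automorphism `s` of `ℂ`. -/
noncomputable def orbitLength {n : ℕ} (s : ℂ ≃+* ℂ) (x : Fin n → ℂ) (r : ℕ) : ℕ :=
  sInf {k | 1 ≤ k ∧ ∀ j : Fin n, (j : ℕ) < r → s^[k] (x j) = x j}

/-- First condition: the `xᵣ` are algebraic over `K` and there is an automorphism `s` of `ℂ` over
`K` which moves the critical locus of `F` and such that for all `r` with `e r ≥ 2` a prime number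
larger than `e r` divides the quotient of the lengths of the orbits of `(x₁, ..., xᵣ)` and
`(x₁, ..., xᵣ₋₁)`. -/
def OrbitCondition {m n : ℕ} (K : Subfield ℂ) (F : Fin m → MvPolynomial (Fin m) ℂ)
    (B D : Set (MvPolynomial (Fin m) ℂ)) (e : Fin n → ℕ) (x : Fin n → ℂ) : Prop :=
  (∀ r, IsAlgebraic K (x r)) ∧ ∃ s : ℂ ≃+* ℂ, (∀ z ∈ K, s z = z) ∧ MovesCriticalLocus s F B D ∧
    ∀ r : Fin n, 2 ≤ e r →
      ∃ l : ℕ, l.Prime ∧ e r < l ∧ l ∣ orbitLength s x (r + 1) / orbitLength s x r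

/-- Second condition: `F` has no critical point on `X`, and `xᵣ` is not in `K` but in a Galois
extension of `K` of degree `l r > e r`, the `l r` being distinct prime numbers; if `e r = 1`, then
also `xᵣ` in `K` is allowed. -/
def CyclicCondition {m n : ℕ} (K : Subfield ℂ) (F : Fin m → MvPolynomial (Fin m) ℂ)
    (B D : Set (MvPolynomial (Fin m) ℂ)) (e : Fin n → ℕ) (x : Fin n → ℂ) : Prop :=
  (∀ t, InX B D t → jacobian F t ≠ 0) ∧
    ∃ l : Fin n → ℕ, Function.Injective l ∧ ∀ r, (e r = 1 ∧ x r ∈ K) ∨ ((l r).Prime ∧ e r < l r ∧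
      x r ∉ K ∧ ∃ L : IntermediateField K ℂ, IsGalois K L ∧ Module.finrank K L = l r ∧ x r ∈ L)

/-- **The dynamical Mordell-Lang conjecture for maps with a moved critical locus.** Let `K` be a
number field in `ℂ`, `X = B \ D` with closed subsets `B`, `D` of `𝔸ᵐ`, `F` a polynomial map with
`F(X) ⊆ X`, and
`Φ(t, x) = (F(t), P₁(t; x₁), P₂(t, x₁; x₂), ..., Pₙ(t, x₁, ..., xₙ₋₁; xₙ))`
on `X × 𝔸ⁿ`, where `Pᵣ` has the degree `e r ≥ 1` in `xᵣ` at all points of `X × 𝔸ⁿ`; all this over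
`K`. Then for all `t` in `X(K)`, all `x` which satisfy `OrbitCondition` or `CyclicCondition` and all
closed subsets `V` over `ℂ` the return set `{k : Φᵏ(t, x) ∈ V}` is a finite union of arithmetic
progressions. For `n = 0`, `OrbitCondition` says that some automorphism over `K` moves the critical
locus of `F`; then this holds for all `K`-rational points `t` of `X`. -/
theorem result {m n : ℕ} (K : Subfield ℂ) (hK : NumberField K)
    (B D : Set (MvPolynomial (Fin m) ℂ)) (hB : ∀ g ∈ B, ∀ s, coeff s g ∈ K)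
    (hD : ∀ g ∈ D, ∀ s, coeff s g ∈ K) (F : Fin m → MvPolynomial (Fin m) ℂ)
    (hF : ∀ i s, coeff s (F i) ∈ K) (hFX : ∀ t, InX B D t → InX B D fun i => eval t (F i))
    (P : Fin n → MvPolynomial (Fin m ⊕ Fin n) ℂ) (hP : ∀ r s, coeff s (P r) ∈ K)
    (hPt : IsTriangular P) (e : Fin n → ℕ) (he : ∀ r, 1 ≤ e r)
    (hdeg : ∀ y : Fin m ⊕ Fin n → ℂ, InX B D (fun i => y (Sum.inl i)) →
      ∀ r, (fibre P y r).natDegree = e r)
    (t : Fin m → ℂ) (ht : ∀ i, t i ∈ K) (htX : InX B D t) (x : Fin n → ℂ)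
    (hx : OrbitCondition K F B D e x ∨ CyclicCondition K F B D e x)
    (V : Set (MvPolynomial (Fin m ⊕ Fin n) ℂ)) :
    ∃ S : Finset (ℕ × ℕ), {k : ℕ | ∀ g ∈ V, eval ((Phi F P)^[k] (Sum.elim t x)) g = 0} =
      {k | ∃ q ∈ S, ∃ j, k = q.1 + q.2 * j} :=
  Pool.Agent.Helper10.TR.fin4 K hK B D hB hD F hF hFX P hP hPt e he hdeg t ht htX x hx V

end Pool.Agent.Helper10.Keep.MovedCriticalLocus
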