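import Mathlib
import Pool.Agent.Helper10.V6.Fin

set_option autoImplicit false

namespace Pool.Agent.Results.MP_295d38_ag.MovedRamification

open MvPolynomial

/-- `t` is a point of the quasi-affine variety `X`, the set of the zeros of `B` in affine space which
are not zeros of `D`. -/
def InX {m : ℕ} (B D : Set (MvPolynomial (Fin m) ℂ)) (t : Fin m → ℂ) : Prop :=
  (∀ g ∈ B, eval t g = 0) ∧ ∃ g ∈ D, eval t g ≠ 0

/-- `t` lies on the closed set `Z` (given by its equations, so that `Z₁ ∪ Z₂` stands for the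
intersection of the closed sets `Z₁` and `Z₂`). -/
def On {m : ℕ} (Z : Set (MvPolynomial (Fin m) ℂ)) (t : Fin m → ℂ) : Prop := ∀ h ∈ Z, eval t h = 0

/-- The polynomial map with the components `F`. -/
noncomputable def polyMap {m : ℕ} (F : Fin m → MvPolynomial (Fin m) ℂ) (t : Fin m → ℂ) : Fin m → ℂ :=
  fun i => eval t (F i)

/-- `F : X → X` is ramified at `t`: the differential of `F` at `t` is not injective on the tangent
space of `X` at `t`, the space of the vectors `v` on which the differentials of all equations in `B`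
vanish. -/
def IsRamified {m : ℕ} (F : Fin m → MvPolynomial (Fin m) ℂ) (B : Set (MvPolynomial (Fin m) ℂ))
    (t : Fin m → ℂ) : Prop :=
  ∃ v : Fin m → ℂ, v ≠ 0 ∧ (∀ i, ∑ j, eval t (pderiv j (F i)) * v j = 0) ∧
    ∀ g ∈ B, ∑ j, eval t (pderiv j g) * v j = 0

/-- The automorphism `s` moves the closed set `Z`: for some `r`, the `r`-th preimage `F⁻ʳ(Z)` in `X`
lies in finitely many closed sets `C i` over the algebraic closure of `K` such that, for each `i`, no
point of `X` lies in all conjugates `sʲ(C i)`, `j ≥ 0`. -/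
def IsMoved {m : ℕ} (K : Subfield ℂ) (s : ℂ ≃+* ℂ) (F : Fin m → MvPolynomial (Fin m) ℂ)
    (B D : Set (MvPolynomial (Fin m) ℂ)) (Z : Set (MvPolynomial (Fin m) ℂ)) : Prop :=
  ∃ (r k : ℕ) (C : Fin k → Set (MvPolynomial (Fin m) ℂ)),
    (∀ i, ∀ h ∈ C i, ∀ u, IsAlgebraic K (coeff u h)) ∧
    (∀ t, InX B D t → On Z ((polyMap F)^[r] t) → ∃ i, On (C i) t) ∧
    ∀ i t, InX B D t → ∃ j : ℕ, ¬ On (map ((s : ℂ →+* ℂ) ^ j) '' C i) t

open Pool.Agent.Helper10.V6 (Fam Good)
open Pool.Agent.Helper10.V4 (Ms mem_Ms)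

theorem alg_mem {K : Subfield ℂ} {s : ℂ ≃+* ℂ} (hs : ∀ z ∈ K, s z = z) {z : ℂ} (h : IsAlgebraic K z) :
    z ∈ Ms s := (mem_Ms s z).2 (Pool.Agent.Helper10.V4.per_algK K s hs z h)

theorem fam_pre {m : ℕ} {K : Subfield ℂ} {s : ℂ ≃+* ℂ} (hs : ∀ z ∈ K, s z = z)
    {F : Fin m → MvPolynomial (Fin m) ℂ} (hF : ∀ i u, coeff u (F i) ∈ K)
    {B D : Set (MvPolynomial (Fin m) ℂ)} (t₀ : Fin m → ℂ) (V₀ R₀ : Set (MvPolynomial (Fin m) ℂ)) (b : Bool)
    (k : ℕ) (C : Fin k → Set (MvPolynomial (Fin m) ℂ)) (hC : ∀ i, ∀ h ∈ C i, ∀ u, IsAlgebraic K (coeff u h))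
    (hc : ∀ i t, InX B D t → ∃ j : ℕ, ¬ On (map ((s : ℂ →+* ℂ) ^ j) '' C i) t) :
    ∀ (r : ℕ) (Z : Set (MvPolynomial (Fin m) ℂ)), (∀ h ∈ Z, ∀ u, coeff u h ∈ Ms s) →
      (∀ t, InX B D t → On Z ((polyMap F)^[r] t) → ∃ i, On (C i) t) →
      Fam (Ms s) (s : ℂ →+* ℂ) F B D t₀ V₀ R₀ b Z := by
  intro r
  induction r with
  | zero =>
    intro Z hZ h
    refine .union b Z k C hZ (fun i => ?_) h
    refine .conj b (C i) {1} (fun h hh u => alg_mem hs (hC i h hh u)) ?_ ?_
    · refine .union b {1} 0 (fun i => i.elim0) ?_ (fun i => i.elim0) ?_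
      · intro h hh u
        classical
        rw [Set.mem_singleton_iff.1 hh, coeff_one]
        split_ifs
        · exact (Ms s).one_mem
        · exact (Ms s).zero_mem
      · intro t _ h
        have := h 1 rfl
        simp at this
    · intro t ht h
      obtain ⟨j, hj⟩ := hc i t ht
      refine absurd ?_ hj
      rintro _ ⟨g, hg, rfl⟩
      exact h j g hg
  | succ r ih =>
    intro Z hZ h
    have hFM : ∀ i u, coeff u (F i) ∈ Ms s := fun i u =>
      alg_mem hs (isAlgebraic_algebraMap (⟨_, hF i u⟩ : K))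
    refine .preimage b Z ((fun g => bind₁ F g) '' Z) hZ (ih _ ?_ ?_) ?_
    · rintro _ ⟨g, hg, rfl⟩ u
      exact Pool.Agent.Helper11.V2.coeff_comp (Ms s) F hFM g (hZ g hg) u
    · intro t ht ho
      refine h t ht ?_
      intro g hg
      have h1 := ho _ ⟨g, hg, rfl⟩
      dsimp only at h1
      rw [Pool.Agent.Helper11.V2.eval_comp] at h1
      rw [Function.iterate_succ_apply']
      exact h1
    · rintro t _ ho _ ⟨g, hg, rfl⟩
      dsimp only
      rw [Pool.Agent.Helper11.V2.eval_comp]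
      exact ho g hg

theorem fam_moved {m : ℕ} {K : Subfield ℂ} {s : ℂ ≃+* ℂ} (hs : ∀ z ∈ K, s z = z)
    {F : Fin m → MvPolynomial (Fin m) ℂ} (hF : ∀ i u, coeff u (F i) ∈ K)
    {B D : Set (MvPolynomial (Fin m) ℂ)} (t₀ : Fin m → ℂ) (V₀ R₀ : Set (MvPolynomial (Fin m) ℂ)) (b : Bool)
    {Z : Set (MvPolynomial (Fin m) ℂ)} (hZ : ∀ h ∈ Z, ∀ u, IsAlgebraic K (coeff u h))
    (h : IsMoved K s F B D Z) : Fam (Ms s) (s : ℂ →+* ℂ) F B D t₀ V₀ R₀ b Z := by
  obtain ⟨r, k, C, h1, h2, h3⟩ := h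
  exact fam_pre hs hF t₀ V₀ R₀ b k C h1 h3 r Z (fun h hh u => alg_mem hs (hZ h hh u)) h2

/-- **The dynamical Mordell-Lang conjecture for maps with moved ramification.** Let `K` be any
subfield of `ℂ`, `X = B \ D` a quasi-affine variety and `F : X → X` a polynomial map, both over `K`,
and `s` an automorphism of `ℂ` which is the identity on `K`. Let the ramification locus of `F` lie in
finitely many closed sets `R i` over the algebraic closure of `K`, and let `Y i` be closed sets over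
it which contain `F(R i)` and `F(Y i)` (so `Y i` contains the forward orbit of `R i`; `Y i = X` is
allowed). Let `V₀` be closed over the algebraic closure of `K` (`V₀ = X` is allowed). If, for each
`i`, `s` moves the intersection of `R i` and `Y i` or that of `V₀` and `Y i`, then for all `t` in
`X(K)` and all closed subsets `V` of `V₀` over `ℂ` the return set `{k : Fᵏ(t) ∈ V}` is a finite union
of arithmetic progressions. -/
theorem result {m : ℕ} (K : Subfield ℂ) (B D : Set (MvPolynomial (Fin m) ℂ))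
    (hB : ∀ g ∈ B, ∀ u, coeff u g ∈ K) (hD : ∀ g ∈ D, ∀ u, coeff u g ∈ K)
    (F : Fin m → MvPolynomial (Fin m) ℂ) (hF : ∀ i u, coeff u (F i) ∈ K)
    (hFX : ∀ t, InX B D t → InX B D (polyMap F t))
    (s : ℂ ≃+* ℂ) (hs : ∀ z ∈ K, s z = z)
    (V₀ : Set (MvPolynomial (Fin m) ℂ)) (hV₀ : ∀ h ∈ V₀, ∀ u, IsAlgebraic K (coeff u h))
    (q : ℕ) (R Y : Fin q → Set (MvPolynomial (Fin m) ℂ))
    (hR : ∀ i, ∀ h ∈ R i, ∀ u, IsAlgebraic K (coeff u h))
    (hY : ∀ i, ∀ h ∈ Y i, ∀ u, IsAlgebraic K (coeff u h))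
    (hram : ∀ t, InX B D t → IsRamified F B t → ∃ i, On (R i) t)
    (hRY : ∀ i t, InX B D t → On (R i) t ∨ On (Y i) t → On (Y i) (polyMap F t))
    (hmoved : ∀ i, IsMoved K s F B D (R i ∪ Y i) ∨ IsMoved K s F B D (V₀ ∪ Y i))
    (t : Fin m → ℂ) (ht : ∀ i, t i ∈ K) (htX : InX B D t)
    (V : Set (MvPolynomial (Fin m) ℂ)) (hV : ∀ y, InX B D y → On V y → On V₀ y) :
    ∃ S : Finset (ℕ × ℕ), {k : ℕ | On V ((polyMap F)^[k] t)} =
      {k | ∃ a ∈ S, ∃ j, k = a.1 + a.2 * j} := by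
  classical
  let R₀ : Set (MvPolynomial (Fin m) ℂ) := {g | ∃ h : Fin q → MvPolynomial (Fin m) ℂ,
    (∀ i, h i ∈ R i) ∧ g = ∏ i, h i}
  have hR₀ : ∀ y, On R₀ y ↔ ∃ i, On (R i) y := by
    intro y
    constructor
    · intro h
      by_contra hcon
      simp only [not_exists, On, not_forall] at hcon
      choose g hg hg' using hcon
      have h1 := h _ ⟨g, hg, rfl⟩
      rw [map_prod] at h1
      obtain ⟨i, _, hi⟩ := Finset.prod_eq_zero_iff.1 h1
      exact hg' i hi
    · rintro ⟨i, hi⟩ _ ⟨g, hg, rfl⟩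
      rw [map_prod]
      exact Finset.prod_eq_zero (Finset.mem_univ i) (hi _ (hg i))
  have hR₀A : ∀ h ∈ R₀, ∀ u, coeff u h ∈ Ms s := by
    rintro _ ⟨g, hg, rfl⟩
    have h1 : ∀ i, ∃ g' : MvPolynomial (Fin m) (Ms s), g i = map (Ms s).subtype g' := by
      intro i
      obtain ⟨g', hg'⟩ := Pool.Agent.Helper26.OS.exists_map98 (Ms s) (g i)
        (fun u => alg_mem hs (hR i (g i) (hg i) u))
      exact ⟨g', hg'.symm⟩
    choose g' hg' using h1
    intro u
    have h2 : ∏ i, g i = map (Ms s).subtype (∏ i, g' i) := by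
      rw [map_prod]
      exact Finset.prod_congr rfl fun i _ => hg' i
    rw [h2, coeff_map]
    exact (coeff u (∏ i, g' i)).2
  have hfR : ∀ i, Fam (Ms s) (s : ℂ →+* ℂ) F B D t V₀ R₀ false (R i) := by
    intro i
    have hA : ∀ {Z : Set (MvPolynomial (Fin m) ℂ)}, (∀ h ∈ Z, ∀ u, IsAlgebraic K (coeff u h)) →
        ∀ h ∈ Z, ∀ u, coeff u h ∈ Ms s := fun hZ h hh u => alg_mem hs (hZ h hh u)
    rcases hmoved i with h | h
    · refine .invariant (R i) (Y i) (R i) (R i) (R i ∪ Y i) (hA (hR i)) (hA (hY i)) (Or.inl rfl) (Or.inl rfl)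
        (fam_moved hs hF t V₀ R₀ false ?_ h) (fun y hy h1 => Or.inl (hRY i y hy h1)) ?_
      · rintro h (hh | hh)
        · exact hR i h hh
        · exact hY i h hh
      · rintro y _ h1 h2 h (hh | hh)
        · exact h1 h hh
        · exact h2 h hh
    · refine .invariant (R i) (Y i) (R i) V₀ (V₀ ∪ Y i) (hA (hR i)) (hA (hY i)) (Or.inl rfl)
        (Or.inr (Or.inl rfl)) (fam_moved hs hF t V₀ R₀ false ?_ h) (fun y hy h1 => Or.inl (hRY i y hy h1)) ?_
      · rintro h (hh | hh)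
        · exact hV₀ h hh
        · exact hY i h hh
      · rintro y _ h1 h2 h (hh | hh)
        · exact h1 h hh
        · exact h2 h hh
  have hgood : Good (n := 0) (Ms s) (s : ℂ →+* ℂ) F B D t ((fun g => rename Sum.inl g) '' V) := by
    refine ⟨V₀, R₀, fun h hh u => alg_mem hs (hV₀ h hh u), ?_, ?_, ?_⟩
    · intro y hy h
      refine hV _ hy ?_
      intro g hg
      have h1 := h _ ⟨g, hg, rfl⟩
      simp only [eval_rename] at h1
      exact h1
    · exact .union false R₀ q R hR₀A hfR fun y _ h => (hR₀ y).1 h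
    · intro y hy h
      exact (hR₀ y).2 (hram y hy h)
  have main := Pool.Agent.Helper10.V6.fin (n := 0) K B D hB hD F hF hFX (fun r => r.elim0) (fun r => r.elim0)
    (fun r => r.elim0) (fun r => r.elim0) (fun r => r.elim0) (fun _ _ r => r.elim0) t ht htX (fun r => r.elim0)
    ((fun g => rename Sum.inl g) '' V) (Or.inl ⟨s, hs, hgood, fun r => r.elim0, fun r => r.elim0⟩)
  obtain ⟨S, hS⟩ := main
  refine ⟨S, ?_⟩
  rw [← hS]
  ext k
  have hit : ∀ (k : ℕ) (y : Fin m ⊕ Fin 0 → ℂ), (fun i => ((fun y : Fin m ⊕ Fin 0 → ℂ =>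
      Sum.elim (fun i => eval (fun j => y (Sum.inl j)) (F i))
        fun r : Fin 0 => eval y (r.elim0 : MvPolynomial (Fin m ⊕ Fin 0) ℂ))^[k] y) (Sum.inl i)) =
      (polyMap F)^[k] fun i => y (Sum.inl i) := by
    intro k
    induction k with
    | zero => intro y; rfl
    | succ k ih =>
      intro y
      rw [Function.iterate_succ_apply', Function.iterate_succ_apply', ← ih y]
      rfl
  have h1 := hit k (Sum.elim t fun r => r.elim0)
  have h2 : (fun i => (Sum.elim t (fun r : Fin 0 => (r.elim0 : ℂ)) : Fin m ⊕ Fin 0 → ℂ) (Sum.inl i)) = t := by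
    funext i
    rfl
  rw [h2] at h1
  constructor
  · rintro h _ ⟨g, hg, rfl⟩
    simp only [eval_rename]
    have h3 := h g hg
    rw [← h1] at h3
    exact h3
  · intro h g hg
    have h3 := h _ ⟨g, hg, rfl⟩
    simp only [eval_rename] at h3
    rw [← h1]
    exact h3

end Pool.Agent.Results.MP_295d38_ag.MovedRamification
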