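import Mathlib
import Pool.Agent.Helper10.V2.FinF

set_option autoImplicit false

namespace Pool.Agent.Helper10.Keep.NonrecurrentCriticalLocus

open MvPolynomial

/-- `t` is a point of the quasi-affine variety `X`, the set of the zeros of `B` in `𝔸ᵐ` which are
not zeros of `D`. -/
def InX {m : ℕ} (B D : Set (MvPolynomial (Fin m) ℂ)) (t : Fin m → ℂ) : Prop :=
  (∀ g ∈ B, eval t g = 0) ∧ ∃ g ∈ D, eval t g ≠ 0

/-- `t` lies on the closed set `Z` (given by its equations). -/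
def On {m : ℕ} (Z : Set (MvPolynomial (Fin m) ℂ)) (t : Fin m → ℂ) : Prop := ∀ h ∈ Z, eval t h = 0

/-- The polynomial map `F`. -/
noncomputable def baseMap {m : ℕ} (F : Fin m → MvPolynomial (Fin m) ℂ) (t : Fin m → ℂ) : Fin m → ℂ :=
  fun i => eval t (F i)

/-- The Jacobian determinant of the polynomial map `F` at the point `t`. -/
noncomputable def jacobian {m : ℕ} (F : Fin m → MvPolynomial (Fin m) ℂ) (t : Fin m → ℂ) : ℂ :=
  (Matrix.of fun i j => eval t (pderiv j (F i))).det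

/-- The smallest family of closed sets of `X` over the field `A` which contains `Z` if `Z` is
contained in a finite union of members (`union`), or if one of the following sets is contained in a
member: the intersection of all `sʲ(Z)`, `j ≥ 0` (`conj`); the image `F(Z)` (`image`); the preimage
`F⁻¹(Z)` (`preimage`); the intersection of `Z` and `Y` for a closed set `Y` over `A` with
`F(Z) ⊆ Y` and `F(Y) ⊆ Y` (`invariant`). Only the points of `X` count in all these inclusions; by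
`union` with `k = 0` the closed sets without points in `X` are members. -/
inductive NonRecurrent {m : ℕ} (A : Subfield ℂ) (s : ℂ ≃+* ℂ) (F : Fin m → MvPolynomial (Fin m) ℂ)
    (B D : Set (MvPolynomial (Fin m) ℂ)) : Set (MvPolynomial (Fin m) ℂ) → Prop
  | union (Z : Set (MvPolynomial (Fin m) ℂ)) (hZ : ∀ h ∈ Z, ∀ u, coeff u h ∈ A)
      (k : ℕ) (C : Fin k → Set (MvPolynomial (Fin m) ℂ)) (hC : ∀ i, NonRecurrent A s F B D (C i))
      (h : ∀ t, InX B D t → On Z t → ∃ i, On (C i) t) : NonRecurrent A s F B D Z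
  | conj (Z : Set (MvPolynomial (Fin m) ℂ)) (hZ : ∀ h ∈ Z, ∀ u, coeff u h ∈ A)
      (W : Set (MvPolynomial (Fin m) ℂ)) (hW : NonRecurrent A s F B D W)
      (h : ∀ t, InX B D t → (∀ j : ℕ, On (map ((s : ℂ →+* ℂ) ^ j) '' Z) t) → On W t) :
      NonRecurrent A s F B D Z
  | image (Z : Set (MvPolynomial (Fin m) ℂ)) (hZ : ∀ h ∈ Z, ∀ u, coeff u h ∈ A)
      (W : Set (MvPolynomial (Fin m) ℂ)) (hW : NonRecurrent A s F B D W)
      (h : ∀ t, InX B D t → On Z t → On W (baseMap F t)) : NonRecurrent A s F B D Z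
  | preimage (Z : Set (MvPolynomial (Fin m) ℂ)) (hZ : ∀ h ∈ Z, ∀ u, coeff u h ∈ A)
      (W : Set (MvPolynomial (Fin m) ℂ)) (hW : NonRecurrent A s F B D W)
      (h : ∀ t, InX B D t → On Z (baseMap F t) → On W t) : NonRecurrent A s F B D Z
  | invariant (Z : Set (MvPolynomial (Fin m) ℂ)) (hZ : ∀ h ∈ Z, ∀ u, coeff u h ∈ A)
      (Y : Set (MvPolynomial (Fin m) ℂ)) (hY : ∀ h ∈ Y, ∀ u, coeff u h ∈ A)
      (W : Set (MvPolynomial (Fin m) ℂ)) (hW : NonRecurrent A s F B D W)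
      (h : ∀ t, InX B D t → On Z t ∨ On Y t → On Y (baseMap F t))
      (h' : ∀ t, InX B D t → On Z t → On Y t → On W t) : NonRecurrent A s F B D Z

/-- `P r` is a polynomial in `t` and `x₁, ..., xᵣ`. -/
def IsTriangular {m n : ℕ} (P : Fin n → MvPolynomial (Fin m ⊕ Fin n) ℂ) : Prop :=
  ∀ r, ∀ s ∈ (P r).support, ∀ j, r < j → s (Sum.inr j) = 0

/-- The polynomial `Pᵣ(t, x₁, ..., xᵣ₋₁; T)` in one variable `T`, at the point `y = (t, x)`. -/
noncomputable def fibre {m n : ℕ} (P : Fin n → MvPolynomial (Fin m ⊕ Fin n) ℂ)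
    (y : Fin m ⊕ Fin n → ℂ) (r : Fin n) : Polynomial ℂ :=
  eval₂ Polynomial.C (fun w => if w = Sum.inr r then Polynomial.X else Polynomial.C (y w)) (P r)

/-- The map `Φ(t, x) = (F(t), P₁(t, x), ..., Pₙ(t, x))`. -/
noncomputable def Phi {m n : ℕ} (F : Fin m → MvPolynomial (Fin m) ℂ)
    (P : Fin n → MvPolynomial (Fin m ⊕ Fin n) ℂ) (y : Fin m ⊕ Fin n → ℂ) : Fin m ⊕ Fin n → ℂ :=
  Sum.elim (baseMap F fun i => y (Sum.inl i)) fun r => eval y (P r)

/-- The length of the orbit of `(x₁, ..., xᵣ)` under the automorphism `s` of `ℂ`. -/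
noncomputable def orbitLength {n : ℕ} (s : ℂ ≃+* ℂ) (x : Fin n → ℂ) (r : ℕ) : ℕ :=
  sInf {k | 1 ≤ k ∧ ∀ j : Fin n, (j : ℕ) < r → s^[k] (x j) = x j}

/-- The two kinds of the automorphism `s` over `K`: `K` is a number field and `A` is the field of
algebraic numbers, or `s` is the complex conjugation and `A = ℂ`. -/
def IsAdmissible (K A : Subfield ℂ) (s : ℂ ≃+* ℂ) : Prop :=
  (∀ z ∈ K, s z = z) ∧ ((NumberField K ∧ ∀ z, z ∈ A ↔ IsAlgebraic ℚ z) ∨
    ((∀ z, s z = (starRingEnd ℂ) z) ∧ ∀ z, z ∈ A))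

/-- First condition: for an automorphism `s` over `K` the critical locus of `F` on `X` is contained
in a member of the family `NonRecurrent`, and for all `r` with `e r ≥ 2` a prime number larger than
`e r` divides the quotient of the lengths of the orbits of `(x₁, ..., xᵣ)` and
`(x₁, ..., xᵣ₋₁)` under `s`. -/
def OrbitCondition {m n : ℕ} (K : Subfield ℂ) (F : Fin m → MvPolynomial (Fin m) ℂ)
    (B D : Set (MvPolynomial (Fin m) ℂ)) (e : Fin n → ℕ) (x : Fin n → ℂ) : Prop :=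
  ∃ (A : Subfield ℂ) (s : ℂ ≃+* ℂ), IsAdmissible K A s ∧
    (∃ Z, NonRecurrent A s F B D Z ∧ ∀ t, InX B D t → jacobian F t = 0 → On Z t) ∧
    (∀ r, x r ∈ A) ∧ ∀ r : Fin n, 2 ≤ e r →
      ∃ l : ℕ, l.Prime ∧ e r < l ∧ l ∣ orbitLength s x (r + 1) / orbitLength s x r

/-- Second condition: `K` is a number field, `F` has no critical point on `X`, and `xᵣ` is not in
`K` but in a Galois extension of `K` of degree `l r > e r`, the `l r` being distinct prime numbers;
if `e r = 1`, then also `xᵣ` in `K` is allowed. -/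
def CyclicCondition {m n : ℕ} (K : Subfield ℂ) (F : Fin m → MvPolynomial (Fin m) ℂ)
    (B D : Set (MvPolynomial (Fin m) ℂ)) (e : Fin n → ℕ) (x : Fin n → ℂ) : Prop :=
  NumberField K ∧ (∀ t, InX B D t → jacobian F t ≠ 0) ∧
    ∃ l : Fin n → ℕ, Function.Injective l ∧ ∀ r, (e r = 1 ∧ x r ∈ K) ∨ ((l r).Prime ∧ e r < l r ∧
      x r ∉ K ∧ ∃ L : IntermediateField K ℂ, IsGalois K L ∧ Module.finrank K L = l r ∧ x r ∈ L)

theorem fam {m : ℕ} {A : Subfield ℂ} {s : ℂ ≃+* ℂ} {F : Fin m → MvPolynomial (Fin m) ℂ}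
    {B D : Set (MvPolynomial (Fin m) ℂ)} {Z : Set (MvPolynomial (Fin m) ℂ)}
    (h : NonRecurrent A s F B D Z) : Pool.Agent.Helper10.V2.Fam A (s : ℂ →+* ℂ) F B D Z := by
  induction h with
  | union Z hZ k C _ h ih => exact .union Z k C hZ ih h
  | conj Z hZ W _ h ih =>
    exact .conj Z W hZ ih fun t ht hj => h t ht fun j => by
      rintro _ ⟨g, hg, rfl⟩
      exact hj j g hg
  | image Z hZ W _ h ih => exact .image Z W hZ ih h
  | preimage Z hZ W _ h ih => exact .preimage Z W hZ ih h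
  | invariant Z hZ Y hY W _ h h' ih => exact .invariant Z Y W hZ hY ih h h'

/-- **The dynamical Mordell-Lang conjecture for maps with a non-recurrent critical locus.** Let `K`
be a subfield of `ℂ`, `X = B \ D` with closed subsets `B`, `D` of `𝔸ᵐ`, `F` a polynomial map with
`F(X) ⊆ X`, and
`Φ(t, x) = (F(t), P₁(t; x₁), P₂(t, x₁; x₂), ..., Pₙ(t, x₁, ..., xₙ₋₁; xₙ))`
on `X × 𝔸ⁿ`, where `Pᵣ` has the degree `e r ≥ 1` in `xᵣ` at all points of `X × 𝔸ⁿ`; all this over
`K`. Then for all `t` in `X(K)`, all `x` which satisfy `OrbitCondition` or `CyclicCondition` and all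
closed subsets `V` over `ℂ` the return set `{k : Φᵏ(t, x) ∈ V}` is a finite union of arithmetic
progressions. For `n = 0`, `OrbitCondition` says that the critical locus of `F` is contained in a
member of the family `NonRecurrent`, for an automorphism `s` over `K` if `K` is a number field, or
for the complex conjugation if `K ⊆ ℝ`; then this holds for all `K`-rational points `t` of `X`. -/
theorem result {m n : ℕ} (K : Subfield ℂ)
    (B D : Set (MvPolynomial (Fin m) ℂ)) (hB : ∀ g ∈ B, ∀ s, coeff s g ∈ K)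
    (hD : ∀ g ∈ D, ∀ s, coeff s g ∈ K) (F : Fin m → MvPolynomial (Fin m) ℂ)
    (hF : ∀ i s, coeff s (F i) ∈ K) (hFX : ∀ t, InX B D t → InX B D (baseMap F t))
    (P : Fin n → MvPolynomial (Fin m ⊕ Fin n) ℂ) (hP : ∀ r s, coeff s (P r) ∈ K)
    (hPt : IsTriangular P) (e : Fin n → ℕ) (he : ∀ r, 1 ≤ e r)
    (hdeg : ∀ y : Fin m ⊕ Fin n → ℂ, InX B D (fun i => y (Sum.inl i)) →
      ∀ r, (fibre P y r).natDegree = e r)
    (t : Fin m → ℂ) (ht : ∀ i, t i ∈ K) (htX : InX B D t) (x : Fin n → ℂ)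
    (hx : OrbitCondition K F B D e x ∨ CyclicCondition K F B D e x)
    (V : Set (MvPolynomial (Fin m ⊕ Fin n) ℂ)) :
    ∃ S : Finset (ℕ × ℕ), {k : ℕ | ∀ g ∈ V, eval ((Phi F P)^[k] (Sum.elim t x)) g = 0} =
      {k | ∃ q ∈ S, ∃ j, k = q.1 + q.2 * j} := by
  refine Pool.Agent.Helper10.V2.fin K B D hB hD F hF hFX P hP hPt e he hdeg t ht htX x ?_ V
  rcases hx with ⟨A, s, ⟨h1, h2⟩, ⟨Z, h3, h4⟩, h5, h6⟩ | h
  · exact Or.inl ⟨A, s, h1, h2, ⟨Z, fam h3, h4⟩, h5, h6⟩
  · exact Or.inr h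

end Pool.Agent.Helper10.Keep.NonrecurrentCriticalLocus
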