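import Mathlib
import Pool.Agent.Helper10.V5.Fin

set_option autoImplicit false

namespace Pool.Agent.Helper10.Keep.NonrecurrentRamificationV5

open MvPolynomial

/-- `t` is a point of the quasi-affine variety `X`, the set of the zeros of `B` in `𝔸ᵐ` which are
not zeros of `D`. -/
def InX {m : ℕ} (B D : Set (MvPolynomial (Fin m) ℂ)) (t : Fin m → ℂ) : Prop :=
  (∀ g ∈ B, eval t g = 0) ∧ ∃ g ∈ D, eval t g ≠ 0

/-- `t` lies on the closed set `Z` (given by its equations). -/
def On {m : ℕ} (Z : Set (MvPolynomial (Fin m) ℂ)) (t : Fin m → ℂ) : Prop := ∀ h ∈ Z, eval t h = 0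

/-- The polynomial map `F`. -/
noncomputable def baseMap {m : ℕ} (F : Fin m → MvPolynomial (Fin m) ℂ) (t : Fin m → ℂ) : Fin m → ℂ :=
  fun i => eval t (F i)

/-- `F : X → X` is ramified at `t`: the differential of `F` at `t` is not injective on the tangent
space of `X` at `t`, which is the space of the vectors `v` on which the differentials of all
equations in `B` vanish. -/
def IsRamified {m : ℕ} (F : Fin m → MvPolynomial (Fin m) ℂ) (B : Set (MvPolynomial (Fin m) ℂ))
    (t : Fin m → ℂ) : Prop :=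
  ∃ v : Fin m → ℂ, v ≠ 0 ∧ (∀ i, ∑ j, eval t (pderiv j (F i)) * v j = 0) ∧
    ∀ g ∈ B, ∑ j, eval t (pderiv j g) * v j = 0

/-- `z` has a finite orbit under the automorphism `s` of `ℂ`. These `z` form a field `M`, which
contains all elements algebraic over a field `K` if `s` is the identity on `K`. -/
def FiniteOrbit (s : ℂ ≃+* ℂ) (z : ℂ) : Prop := ∃ k : ℕ, 1 ≤ k ∧ s^[k] z = z

/-- Two families of closed sets of `X` over the field `M` of the numbers with finite orbits under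
`s`: `N₁ = Avoided s F B D t₀ true` and `N₀ = Avoided s F B D t₀ false` for a point `t₀` of `X`. They
are the smallest families with these properties. For `b = 0` and `b = 1`, `N_b` contains `Z` if `Z`
is contained in a finite union of members of `N_b` (`union`); if the intersection of all `sʲ(Z)`,
`j ≥ 0`, is contained in a member of `N_b` (`conj`); if the image `F(Z)` is contained in a member of
`N_b` (`image`); if the orbit of `t₀` is not contained in `Z` from some time on, and `F⁻¹(Z)` is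
contained in the union of `Z` and a member of `N₁` (`enter`). `N₀` also contains `Z` if the preimage
`F⁻¹(Z)` is contained in a member of `N₀` (`preimage`), or the intersection of `Z` and `Y` for a
closed set `Y` over `M` with `F(Z) ⊆ Y` and `F(Y) ⊆ Y` (`invariant`). Only the points of `X` count
in all these inclusions; by `union` with `k = 0` the closed sets without points in `X` are members.
So `N₁ ⊆ N₀`, and `F⁻¹(Z) ⊆ Z` implies `Z ∈ N₁` unless the orbit of `t₀` is in `Z` from some time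
on. -/
inductive Avoided {m : ℕ} (s : ℂ ≃+* ℂ) (F : Fin m → MvPolynomial (Fin m) ℂ)
    (B D : Set (MvPolynomial (Fin m) ℂ)) (t₀ : Fin m → ℂ) :
    Bool → Set (MvPolynomial (Fin m) ℂ) → Prop
  | union (b : Bool) (Z : Set (MvPolynomial (Fin m) ℂ))
      (hZ : ∀ h ∈ Z, ∀ u, FiniteOrbit s (coeff u h)) (k : ℕ)
      (C : Fin k → Set (MvPolynomial (Fin m) ℂ)) (hC : ∀ i, Avoided s F B D t₀ b (C i))
      (h : ∀ t, InX B D t → On Z t → ∃ i, On (C i) t) : Avoided s F B D t₀ b Z
  | conj (b : Bool) (Z : Set (MvPolynomial (Fin m) ℂ))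
      (hZ : ∀ h ∈ Z, ∀ u, FiniteOrbit s (coeff u h))
      (W : Set (MvPolynomial (Fin m) ℂ)) (hW : Avoided s F B D t₀ b W)
      (h : ∀ t, InX B D t → (∀ j : ℕ, On (map ((s : ℂ →+* ℂ) ^ j) '' Z) t) → On W t) :
      Avoided s F B D t₀ b Z
  | image (b : Bool) (Z : Set (MvPolynomial (Fin m) ℂ))
      (hZ : ∀ h ∈ Z, ∀ u, FiniteOrbit s (coeff u h))
      (W : Set (MvPolynomial (Fin m) ℂ)) (hW : Avoided s F B D t₀ b W)
      (h : ∀ t, InX B D t → On Z t → On W (baseMap F t)) : Avoided s F B D t₀ b Z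
  | enter (b : Bool) (Z : Set (MvPolynomial (Fin m) ℂ))
      (hZ : ∀ h ∈ Z, ∀ u, FiniteOrbit s (coeff u h))
      (hn : ∀ N : ℕ, ∃ k, N ≤ k ∧ ¬ On Z ((baseMap F)^[k] t₀))
      (W : Set (MvPolynomial (Fin m) ℂ)) (hW : Avoided s F B D t₀ true W)
      (h : ∀ t, InX B D t → On Z (baseMap F t) → On Z t ∨ On W t) : Avoided s F B D t₀ b Z
  | preimage (Z : Set (MvPolynomial (Fin m) ℂ)) (hZ : ∀ h ∈ Z, ∀ u, FiniteOrbit s (coeff u h))
      (W : Set (MvPolynomial (Fin m) ℂ)) (hW : Avoided s F B D t₀ false W)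
      (h : ∀ t, InX B D t → On Z (baseMap F t) → On W t) : Avoided s F B D t₀ false Z
  | invariant (Z : Set (MvPolynomial (Fin m) ℂ)) (hZ : ∀ h ∈ Z, ∀ u, FiniteOrbit s (coeff u h))
      (Y : Set (MvPolynomial (Fin m) ℂ)) (hY : ∀ h ∈ Y, ∀ u, FiniteOrbit s (coeff u h))
      (W : Set (MvPolynomial (Fin m) ℂ)) (hW : Avoided s F B D t₀ false W)
      (h : ∀ t, InX B D t → On Z t ∨ On Y t → On Y (baseMap F t))
      (h' : ∀ t, InX B D t → On Z t → On Y t → On W t) : Avoided s F B D t₀ false Z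

/-- The ramification locus of `F : X → X` is contained in a member of the family `N₀`. -/
def Nonrecurrent {m : ℕ} (s : ℂ ≃+* ℂ) (F : Fin m → MvPolynomial (Fin m) ℂ)
    (B D : Set (MvPolynomial (Fin m) ℂ)) (t₀ : Fin m → ℂ) : Prop :=
  ∃ Z, Avoided s F B D t₀ false Z ∧ ∀ t, InX B D t → IsRamified F B t → On Z t

/-- `P r` is a polynomial in `t` and `x₁, ..., xᵣ`. -/
def IsTriangular {m n : ℕ} (P : Fin n → MvPolynomial (Fin m ⊕ Fin n) ℂ) : Prop :=
  ∀ r, ∀ s ∈ (P r).support, ∀ j, r < j → s (Sum.inr j) = 0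

/-- The polynomial `Pᵣ(t, x₁, ..., xᵣ₋₁; T)` in one variable `T`, at the point `y = (t, x)`. -/
noncomputable def fibre {m n : ℕ} (P : Fin n → MvPolynomial (Fin m ⊕ Fin n) ℂ)
    (y : Fin m ⊕ Fin n → ℂ) (r : Fin n) : Polynomial ℂ :=
  eval₂ Polynomial.C (fun w => if w = Sum.inr r then Polynomial.X else Polynomial.C (y w)) (P r)

/-- The map `Φ(t, x) = (F(t), P₁(t, x), ..., Pₙ(t, x))`. -/
noncomputable def Phi {m n : ℕ} (F : Fin m → MvPolynomial (Fin m) ℂ)
    (P : Fin n → MvPolynomial (Fin m ⊕ Fin n) ℂ) (y : Fin m ⊕ Fin n → ℂ) : Fin m ⊕ Fin n → ℂ :=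
  Sum.elim (baseMap F fun i => y (Sum.inl i)) fun r => eval y (P r)

/-- The length of the orbit of `(x₁, ..., xᵣ)` under the automorphism `s` of `ℂ`. -/
noncomputable def orbitLength {n : ℕ} (s : ℂ ≃+* ℂ) (x : Fin n → ℂ) (r : ℕ) : ℕ :=
  sInf {k | 1 ≤ k ∧ ∀ j : Fin n, (j : ℕ) < r → s^[k] (x j) = x j}

/-- First condition: there is an automorphism `s` of `ℂ` which is the identity on `K`, such that the
ramification locus of `F : X → X` is contained in a member of the family `N₀`, all `xᵣ` have finite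
orbits under `s`, and for all `r` with `e r ≥ 2` a prime number larger than `e r` divides the
quotient of the lengths of the orbits of `(x₁, ..., xᵣ)` and `(x₁, ..., xᵣ₋₁)` under `s`. -/
def OrbitCondition {m n : ℕ} (K : Subfield ℂ) (F : Fin m → MvPolynomial (Fin m) ℂ)
    (B D : Set (MvPolynomial (Fin m) ℂ)) (e : Fin n → ℕ) (t : Fin m → ℂ) (x : Fin n → ℂ) : Prop :=
  ∃ s : ℂ ≃+* ℂ, (∀ z ∈ K, s z = z) ∧ Nonrecurrent s F B D t ∧
    (∀ r, FiniteOrbit s (x r)) ∧ ∀ r : Fin n, 2 ≤ e r →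
      ∃ l : ℕ, l.Prime ∧ e r < l ∧ l ∣ orbitLength s x (r + 1) / orbitLength s x r

/-- Second condition: for all automorphisms `s` of `ℂ` which are the identity on `K` the
ramification locus is contained in a member of the family `N₀` (for example it is empty), and `xᵣ`
is not in `K` but in a Galois extension of `K` of degree `l r > e r`, the `l r` being distinct prime
numbers; if `e r = 1`, then also `xᵣ` in `K` is allowed. -/
def CyclicCondition {m n : ℕ} (K : Subfield ℂ) (F : Fin m → MvPolynomial (Fin m) ℂ)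
    (B D : Set (MvPolynomial (Fin m) ℂ)) (e : Fin n → ℕ) (t : Fin m → ℂ) (x : Fin n → ℂ) : Prop :=
  (∀ s : ℂ ≃+* ℂ, (∀ z ∈ K, s z = z) → Nonrecurrent s F B D t) ∧
    ∃ l : Fin n → ℕ, Function.Injective l ∧ ∀ r, (e r = 1 ∧ x r ∈ K) ∨ ((l r).Prime ∧ e r < l r ∧
      x r ∉ K ∧ ∃ L : IntermediateField K ℂ, IsGalois K L ∧ Module.finrank K L = l r ∧ x r ∈ L)

theorem fam {m : ℕ} {s : ℂ ≃+* ℂ} {F : Fin m → MvPolynomial (Fin m) ℂ}
    {B D : Set (MvPolynomial (Fin m) ℂ)} {t₀ : Fin m → ℂ} {b : Bool}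
    {Z : Set (MvPolynomial (Fin m) ℂ)} (h : Avoided s F B D t₀ b Z) :
    Pool.Agent.Helper10.V5.Fam (Pool.Agent.Helper10.V4.Ms s) (s : ℂ →+* ℂ) F B D t₀ b Z := by
  have hM : ∀ Z : Set (MvPolynomial (Fin m) ℂ), (∀ h ∈ Z, ∀ u, FiniteOrbit s (coeff u h)) →
      ∀ h ∈ Z, ∀ u, coeff u h ∈ Pool.Agent.Helper10.V4.Ms s :=
    fun Z hZ h hh u => (Pool.Agent.Helper10.V4.mem_Ms s _).2 (hZ h hh u)
  induction h with
  | union b Z hZ k C _ h ih => exact .union b Z k C (hM Z hZ) ih h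
  | conj b Z hZ W _ h ih =>
    exact .conj b Z W (hM Z hZ) ih fun t ht hj => h t ht fun j => by
      rintro _ ⟨g, hg, rfl⟩
      exact hj j g hg
  | image b Z hZ W _ h ih => exact .image b Z W (hM Z hZ) ih h
  | enter b Z hZ hn W _ h ih => exact .enter b Z W (hM Z hZ) ih hn h
  | preimage Z hZ W _ h ih => exact .preimage Z W (hM Z hZ) ih h
  | invariant Z hZ Y hY W _ h h' ih => exact .invariant Z Y W (hM Z hZ) (hM Y hY) ih h h'

/-- **The dynamical Mordell-Lang conjecture for maps with a non-recurrent ramification locus.** Let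
`K` be any subfield of `ℂ`, `X = B \ D` with closed subsets `B`, `D` of `𝔸ᵐ` (so `X` is any
quasi-affine variety, possibly singular), `F` a polynomial map with `F(X) ⊆ X`, and
`Φ(t, x) = (F(t), P₁(t; x₁), P₂(t, x₁; x₂), ..., Pₙ(t, x₁, ..., xₙ₋₁; xₙ))`
on `X × 𝔸ⁿ`, where `Pᵣ` has the degree `e r ≥ 1` in `xᵣ` at all points of `X × 𝔸ⁿ`; all this over
`K`. Then for all `t` in `X(K)` and all `x` which satisfy `OrbitCondition` or `CyclicCondition` and
all closed subsets `V` over `ℂ` the return set `{k : Φᵏ(t, x) ∈ V}` is a finite union of arithmetic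
progressions. For `n = 0`, `OrbitCondition` says that the ramification locus of `F : X → X` is
contained in a member of the family `N₀` of `t` for an automorphism `s` of `ℂ` which is the identity
on `K`. For `K = ℝ` and the complex conjugation `s` all complex numbers have finite orbits. -/
theorem result {m n : ℕ} (K : Subfield ℂ)
    (B D : Set (MvPolynomial (Fin m) ℂ)) (hB : ∀ g ∈ B, ∀ s, coeff s g ∈ K)
    (hD : ∀ g ∈ D, ∀ s, coeff s g ∈ K) (F : Fin m → MvPolynomial (Fin m) ℂ)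
    (hF : ∀ i s, coeff s (F i) ∈ K) (hFX : ∀ t, InX B D t → InX B D (baseMap F t))
    (P : Fin n → MvPolynomial (Fin m ⊕ Fin n) ℂ) (hP : ∀ r s, coeff s (P r) ∈ K)
    (hPt : IsTriangular P) (e : Fin n → ℕ) (he : ∀ r, 1 ≤ e r)
    (hdeg : ∀ y : Fin m ⊕ Fin n → ℂ, InX B D (fun i => y (Sum.inl i)) →
      ∀ r, (fibre P y r).natDegree = e r)
    (t : Fin m → ℂ) (ht : ∀ i, t i ∈ K) (htX : InX B D t) (x : Fin n → ℂ)
    (hx : OrbitCondition K F B D e t x ∨ CyclicCondition K F B D e t x)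
    (V : Set (MvPolynomial (Fin m ⊕ Fin n) ℂ)) :
    ∃ S : Finset (ℕ × ℕ), {k : ℕ | ∀ g ∈ V, eval ((Phi F P)^[k] (Sum.elim t x)) g = 0} =
      {k | ∃ q ∈ S, ∃ j, k = q.1 + q.2 * j} := by
  refine Pool.Agent.Helper10.V5.fin K B D hB hD F hF hFX P hP hPt e he hdeg t ht htX x ?_ V
  rcases hx with ⟨s, h1, ⟨Z, h3, h4⟩, h5, h6⟩ | ⟨h1, h2⟩
  · exact Or.inl ⟨s, h1, ⟨Z, fam h3, h4⟩, h5, h6⟩
  · refine Or.inr ⟨fun s hs => ?_, h2⟩
    obtain ⟨Z, h3, h4⟩ := h1 s hs
    exact ⟨Z, fam h3, h4⟩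

end Pool.Agent.Helper10.Keep.NonrecurrentRamificationV5
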