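import Mathlib
import Pool.Agent.Helper10.V6.Fin

set_option autoImplicit false

namespace Pool.Agent.Results.MP_295d38_ag.NonrecurrentRamification

open MvPolynomial

/-- `t` is a point of the quasi-affine variety `X`, the set of the zeros of `B` in `𝔸ᵐ` which are
not zeros of `D`. -/
def InX {m : ℕ} (B D : Set (MvPolynomial (Fin m) ℂ)) (t : Fin m → ℂ) : Prop :=
  (∀ g ∈ B, eval t g = 0) ∧ ∃ g ∈ D, eval t g ≠ 0

/-- `t` lies on the closed set `Z` (given by its equations). -/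
def On {m : ℕ} (Z : Set (MvPolynomial (Fin m) ℂ)) (t : Fin m → ℂ) : Prop := ∀ h ∈ Z, eval t h = 0

/-- The polynomial map `F`. -/
noncomputable def baseMap {m : ℕ} (F : Fin m → MvPolynomial (Fin m) ℂ) (t : Fin m → ℂ) : Fin m → ℂ :=
  fun i => eval t (F i)

/-- `F : X → X` is ramified at `t`: the differential of `F` at `t` is not injective on the tangent
space of `X` at `t`, which is the space of the vectors `v` on which the differentials of all
equations in `B` vanish. -/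
def IsRamified {m : ℕ} (F : Fin m → MvPolynomial (Fin m) ℂ) (B : Set (MvPolynomial (Fin m) ℂ))
    (t : Fin m → ℂ) : Prop :=
  ∃ v : Fin m → ℂ, v ≠ 0 ∧ (∀ i, ∑ j, eval t (pderiv j (F i)) * v j = 0) ∧
    ∀ g ∈ B, ∑ j, eval t (pderiv j g) * v j = 0

/-- `z` has a finite orbit under the automorphism `s` of `ℂ`. These `z` form a field `M`, which
contains all elements algebraic over a field `K` if `s` is the identity on `K`. -/
def FiniteOrbit (s : ℂ ≃+* ℂ) (z : ℂ) : Prop := ∃ k : ℕ, 1 ≤ k ∧ s^[k] z = z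

/-- Two families of closed sets of `X` over the field `M` of the numbers with finite orbits under
`s`: `N₁ = Avoided s F B D t₀ V₀ R₀ true` and `N₀ = Avoided s F B D t₀ V₀ R₀ false`, for a point `t₀`
of `X` and closed sets `V₀` and `R₀`. They are the smallest families with these properties. For
`b = 0` and `b = 1`, `N_b` contains `Z` if `Z` is contained in a finite union of members of `N_b`
(`union`); if the intersection of all `sʲ(Z)`, `j ≥ 0` (`conj`), the image `F(Z)` (`image`) or the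
preimage `F⁻¹(Z)` (`preimage`) is contained in a member of `N_b`; if the orbit of `t₀` is not
contained in `Z` from some time on, and `F⁻¹(Z)` is contained in the union of `Z` and a member of
`N₁` (`enter`). `N₀` also contains `Z` if there are a member `W` of `N₀`, a closed set `Y` over `M`
and two sets `U` and `E` among `Z`, `V₀` and `R₀` such that `F(U)` and `F(Y)` are contained in
`Y ∪ W`, and the intersection of `E` and `Y` in `W` (`invariant`). Only the points of `X` count in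
all these inclusions; by `union` with `k = 0` the closed sets without points in `X` are members. -/
inductive Avoided {m : ℕ} (s : ℂ ≃+* ℂ) (F : Fin m → MvPolynomial (Fin m) ℂ)
    (B D : Set (MvPolynomial (Fin m) ℂ)) (t₀ : Fin m → ℂ) (V₀ R₀ : Set (MvPolynomial (Fin m) ℂ)) :
    Bool → Set (MvPolynomial (Fin m) ℂ) → Prop
  | union (b : Bool) (Z : Set (MvPolynomial (Fin m) ℂ))
      (hZ : ∀ h ∈ Z, ∀ u, FiniteOrbit s (coeff u h)) (k : ℕ)
      (C : Fin k → Set (MvPolynomial (Fin m) ℂ)) (hC : ∀ i, Avoided s F B D t₀ V₀ R₀ b (C i))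
      (h : ∀ t, InX B D t → On Z t → ∃ i, On (C i) t) : Avoided s F B D t₀ V₀ R₀ b Z
  | conj (b : Bool) (Z : Set (MvPolynomial (Fin m) ℂ))
      (hZ : ∀ h ∈ Z, ∀ u, FiniteOrbit s (coeff u h))
      (W : Set (MvPolynomial (Fin m) ℂ)) (hW : Avoided s F B D t₀ V₀ R₀ b W)
      (h : ∀ t, InX B D t → (∀ j : ℕ, On (map ((s : ℂ →+* ℂ) ^ j) '' Z) t) → On W t) :
      Avoided s F B D t₀ V₀ R₀ b Z
  | image (b : Bool) (Z : Set (MvPolynomial (Fin m) ℂ))
      (hZ : ∀ h ∈ Z, ∀ u, FiniteOrbit s (coeff u h))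
      (W : Set (MvPolynomial (Fin m) ℂ)) (hW : Avoided s F B D t₀ V₀ R₀ b W)
      (h : ∀ t, InX B D t → On Z t → On W (baseMap F t)) : Avoided s F B D t₀ V₀ R₀ b Z
  | preimage (b : Bool) (Z : Set (MvPolynomial (Fin m) ℂ))
      (hZ : ∀ h ∈ Z, ∀ u, FiniteOrbit s (coeff u h))
      (W : Set (MvPolynomial (Fin m) ℂ)) (hW : Avoided s F B D t₀ V₀ R₀ b W)
      (h : ∀ t, InX B D t → On Z (baseMap F t) → On W t) : Avoided s F B D t₀ V₀ R₀ b Z
  | enter (b : Bool) (Z : Set (MvPolynomial (Fin m) ℂ))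
      (hZ : ∀ h ∈ Z, ∀ u, FiniteOrbit s (coeff u h))
      (hn : ∀ N : ℕ, ∃ k, N ≤ k ∧ ¬ On Z ((baseMap F)^[k] t₀))
      (W : Set (MvPolynomial (Fin m) ℂ)) (hW : Avoided s F B D t₀ V₀ R₀ true W)
      (h : ∀ t, InX B D t → On Z (baseMap F t) → On Z t ∨ On W t) : Avoided s F B D t₀ V₀ R₀ b Z
  | invariant (Z : Set (MvPolynomial (Fin m) ℂ)) (hZ : ∀ h ∈ Z, ∀ u, FiniteOrbit s (coeff u h))
      (Y : Set (MvPolynomial (Fin m) ℂ)) (hY : ∀ h ∈ Y, ∀ u, FiniteOrbit s (coeff u h))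
      (U E : Set (MvPolynomial (Fin m) ℂ)) (hU : U = Z ∨ U = V₀ ∨ U = R₀)
      (hE : E = Z ∨ E = V₀ ∨ E = R₀)
      (W : Set (MvPolynomial (Fin m) ℂ)) (hW : Avoided s F B D t₀ V₀ R₀ false W)
      (h : ∀ t, InX B D t → On U t ∨ On Y t → On Y (baseMap F t) ∨ On W (baseMap F t))
      (h' : ∀ t, InX B D t → On E t → On Y t → On W t) : Avoided s F B D t₀ V₀ R₀ false Z

/-- There are closed sets `V₀` and `R₀` over `M` such that `V` is contained in `V₀ × 𝔸ⁿ`, the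
ramification locus of `F : X → X` in `R₀`, and `R₀` is a member of the family `N₀`. -/
def Nonrecurrent {m n : ℕ} (s : ℂ ≃+* ℂ) (F : Fin m → MvPolynomial (Fin m) ℂ)
    (B D : Set (MvPolynomial (Fin m) ℂ)) (t₀ : Fin m → ℂ)
    (V : Set (MvPolynomial (Fin m ⊕ Fin n) ℂ)) : Prop :=
  ∃ V₀ R₀ : Set (MvPolynomial (Fin m) ℂ), (∀ h ∈ V₀, ∀ u, FiniteOrbit s (coeff u h)) ∧
    (∀ y : Fin m ⊕ Fin n → ℂ, InX B D (fun i => y (Sum.inl i)) → (∀ g ∈ V, eval y g = 0) →
      On V₀ fun i => y (Sum.inl i)) ∧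
    Avoided s F B D t₀ V₀ R₀ false R₀ ∧ ∀ t, InX B D t → IsRamified F B t → On R₀ t

/-- `P r` is a polynomial in `t` and `x₁, ..., xᵣ`. -/
def IsTriangular {m n : ℕ} (P : Fin n → MvPolynomial (Fin m ⊕ Fin n) ℂ) : Prop :=
  ∀ r, ∀ s ∈ (P r).support, ∀ j, r < j → s (Sum.inr j) = 0

/-- The polynomial `Pᵣ(t, x₁, ..., xᵣ₋₁; T)` in one variable `T`, at the point `y = (t, x)`. -/
noncomputable def fibre {m n : ℕ} (P : Fin n → MvPolynomial (Fin m ⊕ Fin n) ℂ)
    (y : Fin m ⊕ Fin n → ℂ) (r : Fin n) : Polynomial ℂ :=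
  eval₂ Polynomial.C (fun w => if w = Sum.inr r then Polynomial.X else Polynomial.C (y w)) (P r)

/-- The map `Φ(t, x) = (F(t), P₁(t, x), ..., Pₙ(t, x))`. -/
noncomputable def Phi {m n : ℕ} (F : Fin m → MvPolynomial (Fin m) ℂ)
    (P : Fin n → MvPolynomial (Fin m ⊕ Fin n) ℂ) (y : Fin m ⊕ Fin n → ℂ) : Fin m ⊕ Fin n → ℂ :=
  Sum.elim (baseMap F fun i => y (Sum.inl i)) fun r => eval y (P r)

/-- The length of the orbit of `(x₁, ..., xᵣ)` under the automorphism `s` of `ℂ`. -/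
noncomputable def orbitLength {n : ℕ} (s : ℂ ≃+* ℂ) (x : Fin n → ℂ) (r : ℕ) : ℕ :=
  sInf {k | 1 ≤ k ∧ ∀ j : Fin n, (j : ℕ) < r → s^[k] (x j) = x j}

/-- First condition: there is an automorphism `s` of `ℂ` which is the identity on `K`, such that
`Nonrecurrent` holds for `s`, all `xᵣ` have finite orbits under `s`, and for all `r` with `e r ≥ 2` a
prime number larger than `e r` divides the quotient of the lengths of the orbits of
`(x₁, ..., xᵣ)` and `(x₁, ..., xᵣ₋₁)` under `s`. -/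
def OrbitCondition {m n : ℕ} (K : Subfield ℂ) (F : Fin m → MvPolynomial (Fin m) ℂ)
    (B D : Set (MvPolynomial (Fin m) ℂ)) (e : Fin n → ℕ) (t : Fin m → ℂ) (x : Fin n → ℂ)
    (V : Set (MvPolynomial (Fin m ⊕ Fin n) ℂ)) : Prop :=
  ∃ s : ℂ ≃+* ℂ, (∀ z ∈ K, s z = z) ∧ Nonrecurrent s F B D t V ∧
    (∀ r, FiniteOrbit s (x r)) ∧ ∀ r : Fin n, 2 ≤ e r →
      ∃ l : ℕ, l.Prime ∧ e r < l ∧ l ∣ orbitLength s x (r + 1) / orbitLength s x r

/-- Second condition: `Nonrecurrent` holds for all automorphisms `s` of `ℂ` which are the identity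
on `K` (for example, because `F : X → X` is unramified), and `xᵣ` is not in `K` but in a Galois
extension of `K` of degree `l r > e r`, the `l r` being distinct prime numbers; if `e r = 1`, then
also `xᵣ` in `K` is allowed. -/
def CyclicCondition {m n : ℕ} (K : Subfield ℂ) (F : Fin m → MvPolynomial (Fin m) ℂ)
    (B D : Set (MvPolynomial (Fin m) ℂ)) (e : Fin n → ℕ) (t : Fin m → ℂ) (x : Fin n → ℂ)
    (V : Set (MvPolynomial (Fin m ⊕ Fin n) ℂ)) : Prop :=
  (∀ s : ℂ ≃+* ℂ, (∀ z ∈ K, s z = z) → Nonrecurrent s F B D t V) ∧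
    ∃ l : Fin n → ℕ, Function.Injective l ∧ ∀ r, (e r = 1 ∧ x r ∈ K) ∨ ((l r).Prime ∧ e r < l r ∧
      x r ∉ K ∧ ∃ L : IntermediateField K ℂ, IsGalois K L ∧ Module.finrank K L = l r ∧ x r ∈ L)

theorem fam {m : ℕ} {s : ℂ ≃+* ℂ} {F : Fin m → MvPolynomial (Fin m) ℂ}
    {B D : Set (MvPolynomial (Fin m) ℂ)} {t₀ : Fin m → ℂ} {V₀ R₀ : Set (MvPolynomial (Fin m) ℂ)}
    {b : Bool} {Z : Set (MvPolynomial (Fin m) ℂ)} (h : Avoided s F B D t₀ V₀ R₀ b Z) :
    Pool.Agent.Helper10.V6.Fam (Pool.Agent.Helper10.V4.Ms s) (s : ℂ →+* ℂ) F B D t₀ V₀ R₀ b Z := by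
  have hM : ∀ Z : Set (MvPolynomial (Fin m) ℂ), (∀ h ∈ Z, ∀ u, FiniteOrbit s (coeff u h)) →
      ∀ h ∈ Z, ∀ u, coeff u h ∈ Pool.Agent.Helper10.V4.Ms s :=
    fun Z hZ h hh u => (Pool.Agent.Helper10.V4.mem_Ms s _).2 (hZ h hh u)
  induction h with
  | union b Z hZ k C _ h ih => exact .union b Z k C (hM Z hZ) ih h
  | conj b Z hZ W _ h ih =>
    exact .conj b Z W (hM Z hZ) ih fun t ht hj => h t ht fun j => by
      rintro _ ⟨g, hg, rfl⟩
      exact hj j g hg
  | image b Z hZ W _ h ih => exact .image b Z W (hM Z hZ) ih h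
  | preimage b Z hZ W _ h ih => exact .preimage b Z W (hM Z hZ) ih h
  | enter b Z hZ hn W _ h ih => exact .enter b Z W (hM Z hZ) ih hn h
  | invariant Z hZ Y hY U E hU hE W _ h h' ih =>
    exact .invariant Z Y U E W (hM Z hZ) (hM Y hY) hU hE ih h h'

theorem good {m n : ℕ} {s : ℂ ≃+* ℂ} {F : Fin m → MvPolynomial (Fin m) ℂ}
    {B D : Set (MvPolynomial (Fin m) ℂ)} {t₀ : Fin m → ℂ}
    {V : Set (MvPolynomial (Fin m ⊕ Fin n) ℂ)} (h : Nonrecurrent s F B D t₀ V) :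
    Pool.Agent.Helper10.V6.Good (Pool.Agent.Helper10.V4.Ms s) (s : ℂ →+* ℂ) F B D t₀ V := by
  obtain ⟨V₀, R₀, h1, h2, h3, h4⟩ := h
  exact ⟨V₀, R₀, fun h hh u => (Pool.Agent.Helper10.V4.mem_Ms s _).2 (h1 h hh u), h2, fam h3, h4⟩

/-- **The dynamical Mordell-Lang conjecture for maps with a non-recurrent ramification locus.** Let
`K` be any subfield of `ℂ`, `X = B \ D` with closed subsets `B`, `D` of `𝔸ᵐ` (so `X` is any
quasi-affine variety, possibly singular), `F` a polynomial map with `F(X) ⊆ X`, and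
`Φ(t, x) = (F(t), P₁(t; x₁), P₂(t, x₁; x₂), ..., Pₙ(t, x₁, ..., xₙ₋₁; xₙ))`
on `X × 𝔸ⁿ`, where `Pᵣ` has the degree `e r ≥ 1` in `xᵣ` at all points of `X × 𝔸ⁿ`; all this over
`K`. Then for all `t` in `X(K)`, all `x` and all closed subsets `V` over `ℂ` which satisfy
`OrbitCondition` or `CyclicCondition` the return set `{k : Φᵏ(t, x) ∈ V}` is a finite union of
arithmetic progressions. These conditions on `V` hold for all `V` if they hold for `V₀ = X`. For
`n = 0`, `OrbitCondition` says that `Nonrecurrent` holds for an automorphism `s` of `ℂ` which is the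
identity on `K`. For `K = ℝ` and the complex conjugation `s` all complex numbers have finite
orbits. -/
theorem result {m n : ℕ} (K : Subfield ℂ)
    (B D : Set (MvPolynomial (Fin m) ℂ)) (hB : ∀ g ∈ B, ∀ s, coeff s g ∈ K)
    (hD : ∀ g ∈ D, ∀ s, coeff s g ∈ K) (F : Fin m → MvPolynomial (Fin m) ℂ)
    (hF : ∀ i s, coeff s (F i) ∈ K) (hFX : ∀ t, InX B D t → InX B D (baseMap F t))
    (P : Fin n → MvPolynomial (Fin m ⊕ Fin n) ℂ) (hP : ∀ r s, coeff s (P r) ∈ K)
    (hPt : IsTriangular P) (e : Fin n → ℕ) (he : ∀ r, 1 ≤ e r)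
    (hdeg : ∀ y : Fin m ⊕ Fin n → ℂ, InX B D (fun i => y (Sum.inl i)) →
      ∀ r, (fibre P y r).natDegree = e r)
    (t : Fin m → ℂ) (ht : ∀ i, t i ∈ K) (htX : InX B D t) (x : Fin n → ℂ)
    (V : Set (MvPolynomial (Fin m ⊕ Fin n) ℂ))
    (hx : OrbitCondition K F B D e t x V ∨ CyclicCondition K F B D e t x V) :
    ∃ S : Finset (ℕ × ℕ), {k : ℕ | ∀ g ∈ V, eval ((Phi F P)^[k] (Sum.elim t x)) g = 0} =
      {k | ∃ q ∈ S, ∃ j, k = q.1 + q.2 * j} := by
  refine Pool.Agent.Helper10.V6.fin K B D hB hD F hF hFX P hP hPt e he hdeg t ht htX x V ?_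
  rcases hx with ⟨s, h1, h3, h5, h6⟩ | ⟨h1, h2⟩
  · exact Or.inl ⟨s, h1, good h3, h5, h6⟩
  · exact Or.inr ⟨fun s hs => good (h1 s hs), h2⟩

end Pool.Agent.Results.MP_295d38_ag.NonrecurrentRamification
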