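import Pool.Agent.Helper91.Section.SE.Main3
import Pool.Agent.Helper91.Section.Final2

/-!
# The section conjecture: ramified twists of superelliptic curves of good reduction

`k` is a field of characteristic zero and `O` is a valuation ring of `k` (of any rank) whose residue
field `κ` is finitely generated as a field (for instance `κ` is finite, or a number field, or
finitely generated over `ℚ`).  `n` is a prime number different from the characteristic of `κ`,
`c` is an element of `k` whose value is not `n` times a value, and `f ∈ O[X]` has a unit leading
coefficient, degree at least `3` and divisible by `n`, and separable reduction.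

If a curve `X` over `k` with function field `K` admits a nonconstant map to the curve
`c yⁿ = f(x)`, then the existence of a Galois section of `X` implies that the reduction of `f` has
a root in `κ`.  If moreover `O` is henselian, then `f` has a root `r` in `O`; in particular
the smooth projective curve `c yⁿ = f(x)` has the rational point `(r, 0)`.
-/

universe u

namespace Pool.Agent.Results.MP_e66f84_ag.SuperellipticTwists

open Polynomial Pool.Agent.Helper91.Sect

theorem result {k K : Type u} [Field k] [Field K] [Algebra k K] [CharZero k]
    (O : ValuationSubring k)
    -- the residue field is finitely generated as a field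
    (hfg : ∃ S : Finset (IsLocalRing.ResidueField O),
      Subfield.closure (S : Set (IsLocalRing.ResidueField O)) = ⊤)
    -- `n` is a prime number, different from the characteristic of the residue field
    {n : ℕ} (hn : n.Prime) (hnκ : (n : IsLocalRing.ResidueField O) ≠ 0)
    -- an element whose value is not divisible by `n`
    (c : k) (hc : ∀ d : k, O.valuation c ≠ O.valuation d ^ n)
    -- the branch points
    (f : O[X]) (hlc : IsUnit f.leadingCoeff)
    (hsep : (f.map (IsLocalRing.residue O)).Separable)
    (hdvd : n ∣ f.natDegree) (hdeg : 3 ≤ f.natDegree)
    -- the curve `c yⁿ = f(x)`
    (x y : K) (hx : Transcendental k x)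
    (hxy : algebraMap k K c * y ^ n = aeval x (f.map (algebraMap O k)))
    -- a Galois section
    (s : GaloisSection k K) :
    (∃ a : IsLocalRing.ResidueField O, (f.map (IsLocalRing.residue O)).eval a = 0) ∧
      (HenselianLocalRing O → ∃ r : O, f.eval r = 0) := by
  obtain ⟨S, hS⟩ := hfg
  have h := Pool.Agent.Helper91.SE.section_root_n (hasPlaces_of_closure hS) hn hnκ hc hlc hsep
    hdvd hdeg hx hxy s
  exact ⟨h, fun hO => by obtain ⟨a, ha⟩ := h; exact hensel_root hlc hsep ha⟩

end Pool.Agent.Results.MP_e66f84_ag.SuperellipticTwists
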