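import Pool.Agent.Helper10.UL.FinalOne

/-!
# The section conjecture for superelliptic curves over `F(t)` outside a thin set

Let `F` be a finitely generated field of characteristic zero, for example `ℚ` or a number field, let `k = F(t)` be
the field of rational functions in one variable, and let `d ≥ 3` and `m ≥ 1`.  We consider all polynomials
`f = ∑_{i ≤ d} a_i x^i` whose coefficients `a_i` are polynomials in `t` over `F` of degree at most `m`.  For all
of them outside a thin subset (in the sense of Serre) of the affine space of dimension `(d + 1)(m + 1)` over `F`:
`f` is separable of degree `d`, and for all `n` which are not prime to `d` the superelliptic curve `yⁿ = f(x)` over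
`k`, and every curve over `k` which maps onto it, has no Galois section; so all these curves satisfy the section
conjecture.

The field `F` is Hilbertian, so the complement of a thin set is big (Zariski dense; for number fields it contains 100
percent of the integral points if they are ordered by height).
-/

universe u

namespace Pool.Agent.Results.MP_e66f84_ag.ThinExceptions

open Polynomial Pool.Agent.Helper91.Sect

/-- Thin sets in the sense of Serre: a set `A` of points of the affine space `F ^ I` is thin if there are a nonzero
polynomial `Ψ` and finitely many polynomials `Q(X)` of degree at least two, whose coefficients are polynomials on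
`F ^ I`, and which are irreducible over the field of rational functions on `F ^ I`, such that for all `a ∈ A`
either `Ψ(a) = 0` or one of the polynomials `Q(a, X)` has a root in `F`. -/
def IsThin {F : Type u} [Field F] {I : Type} (A : Set (I → F)) : Prop :=
  ∃ (Ψ : MvPolynomial I F) (S : Finset (MvPolynomial I F)[X]), Ψ ≠ 0 ∧
    (∀ Q ∈ S, 2 ≤ Q.natDegree ∧ Irreducible (Q.map (algebraMap (MvPolynomial I F)
      (FractionRing (MvPolynomial I F))))) ∧
    ∀ a ∈ A, MvPolynomial.eval a Ψ = 0 ∨ ∃ Q ∈ S, ∃ x : F, eval₂ (MvPolynomial.eval a) x Q = 0

/-- The polynomial `∑_{i ≤ d} a_i(t) x^i` with `a_i(t) = ∑_{e ≤ m} a_(i,e) t^e`. -/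
noncomputable def curve {F k : Type u} [Field F] [Field k] [Algebra F k] {d m : ℕ} (t : k)
    (a : Fin (d + 1) × Fin (m + 1) → F) : k[X] :=
  ∑ i : Fin (d + 1), C (∑ e : Fin (m + 1), algebraMap F k (a (i, e)) * t ^ (e : ℕ)) * X ^ (i : ℕ)

/-- For all `n` which are not prime to `d` no curve which maps onto `yⁿ = f(x)` has a Galois section:
there is no Galois section of `K / k` if `K` contains elements `x` and `y` with `x` transcendental over `k`
and `yⁿ = f(x)`. -/
def NoSections {k : Type u} [Field k] (d : ℕ) (f : k[X]) : Prop :=
  ∀ n : ℕ, ¬ n.Coprime d →
    ∀ (K : Type u) [Field K] [Algebra k K] (x y : K), Transcendental k x → y ^ n = aeval x f →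
    IsEmpty (GaloisSection k K)

/-- **The section conjecture for the superelliptic curves over `F(t)` outside a thin set.** -/
theorem result {F k : Type u} [Field F] [CharZero F] [Field k] [Algebra F k]
    -- `F` is a finitely generated field
    (hF : ∃ S : Finset F, Subfield.closure (S : Set F) = ⊤)
    -- `k = F(t)`
    {t : k} (ht : Transcendental F t) (htop : IntermediateField.adjoin F {t} = ⊤)
    {d m : ℕ} (hd : 3 ≤ d) (hm : 1 ≤ m) :
    -- the set of the exceptional polynomials is thin
    IsThin {a : Fin (d + 1) × Fin (m + 1) → F |
      ¬ ((curve t a).natDegree = d ∧ (curve t a).Separable ∧ NoSections d (curve t a))} :=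
  UL.no_sections_thin hF ht htop hd hm

end Pool.Agent.Results.MP_e66f84_ag.ThinExceptions
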