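import Pool.Agent.Helper10.TWT.C4
import Pool.Agent.Helper37.TWU.G
import Pool.Agent.Helper13.TW.FinW2

/-!
# Galois sections of the twists of cyclic covers, uniformly in the field of constants

Let `F₀ ⊂ k₀` be fields of characteristic zero, `k₀` finitely generated, and let `w_0, …, w_m` be elements of `k₀`
such that one of the quotients `w_i / w_l` is transcendental over `F₀`.  For example `k₀` is the function field of a
variety over `F₀` and `w_0, …, w_m` is a basis of a Riemann-Roch space `L(D)` of dimension at least two, or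
`k₀ = F₀(t_1, …, t_r)` and the `w_e` are the monomials of degree at most `m ≥ 1`.

Let `X` be a curve over `k₀` with a faithful action of the group scheme `μ_n`, `n ≥ 2`, which is not rational over
the algebraic closure.  The quotient is a curve with function field `K₀ / k₀`, the function field of `X` is `K₀(y)`
with `yⁿ = g ∈ K₀`, and the twists of `X` by the classes of `H¹(k, μ_n) = k* / k*ⁿ`, `k` an extension of `k₀`, are
the curves `v yⁿ = g` over `k`.

Then there is ONE polynomial `Q(a, X)`, with coefficients in `F₀`, in `X` and in the `m + 1` variables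
`a = (a_0, …, a_m)`, which has no root in the field of rational functions `F̄₀(a)`, such that the following holds for
all finitely generated extension fields `F` of `F₀` and all composites `k = F k₀` of `F` and `k₀` over `F₀` in which
`F` and `k₀` are algebraically free over `F₀` (for `k₀ = F₀(t_1, …, t_r)`: for all `F` and for
`k = F(t_1, …, t_r)`).  Let `K₁ = k K₀` be the function field of the curve `K₀` over `k`, and let `v = ∑ a_e w_e` be
an element of the `F`-vector space generated by the `w_e` such that `Q(a, X)` has no root in `F`.  Then for all `n`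
and all `j` which are not divisible by `n`:

* If `gcd(n, ord_O(g))` does not divide `j` for all `k`-rational places `O` of `K₁`, then neither the twist
  `v^j yⁿ = g` over `k` nor any curve over `k` which maps onto it has a Galois section.
* If two quotients `w_i / w_l`, `w_j / w_l` are algebraically independent over `F₀`, then **every** Galois section of
  the twist `v^j yⁿ = g` over `k` is geometric, that is, it comes from a rational point; there is no condition on `g`.

The points `a` over `F` for which `Q(a, X)` has a root in `F` form a thin set in the sense of Serre, which is given by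
the same polynomial `Q` for all fields of constants `F`.  If two quotients are algebraically independent as in the
second assertion, `Q` does not depend on `X`: the exceptional twists are in one hypersurface for all `F`.  The field
`F` may be replaced by any finite extension `E` in which `Q(a, X)` has no root (and `k` by `k E`).

There is no condition on the curve and on the cover; the genus of the twist may also be one.
-/

universe u

namespace Pool.Agent.Results.MP_e66f84_ag.TwistsUniform

open Polynomial Pool.Agent.Helper91.Sect Pool.Agent.SC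

/-- The polynomial `Q(a, X)`, whose coefficients are polynomials over `F₀` in the variables `a`, has no root in the
field of rational functions in these variables over the algebraic closure of `F₀`. -/
def NoRoot {F₀ : Type u} [Field F₀] {I : Type} (Q : (MvPolynomial I F₀)[X]) : Prop :=
  ∀ r : FractionRing (MvPolynomial I (AlgebraicClosure F₀)),
    eval₂ ((algebraMap (MvPolynomial I (AlgebraicClosure F₀))
      (FractionRing (MvPolynomial I (AlgebraicClosure F₀)))).comp
        (MvPolynomial.map (algebraMap F₀ (AlgebraicClosure F₀)))) r Q ≠ 0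

/-- The polynomial `Q(a, X)` in one variable `X` over `F`, for a point `a` over `F`. -/
noncomputable def value {F₀ F : Type u} [Field F₀] [Field F] [Algebra F₀ F] {I : Type}
    (Q : (MvPolynomial I F₀)[X]) (a : I → F) : F[X] :=
  Q.map (MvPolynomial.aeval a : MvPolynomial I F₀ →ₐ[F₀] F).toRingHom

/-- The field `k` is a composite of `F` and `k₀` over `F₀`, in which `F` and `k₀` are algebraically free over `F₀`:
it is generated by `F` and `k₀`, and elements of `k₀` which are algebraically independent over `F₀` are
algebraically independent over `F`. -/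
def FreeComposite (F₀ k₀ F k : Type u) [Field F₀] [Field k₀] [Field F] [Field k] [Algebra F₀ k₀]
    [Algebra F k] [Algebra k₀ k] : Prop :=
  IntermediateField.adjoin F (Set.range (algebraMap k₀ k)) = ⊤ ∧
    ∀ (n : ℕ) (x : Fin n → k₀), AlgebraicIndependent F₀ x →
      AlgebraicIndependent F fun i => algebraMap k₀ k (x i)

/-- `K₁` is the function field over `k` of the curve with function field `K₀ / k₀`: it is generated by `k` and `K₀`,
and some element of `K₀` is transcendental over `k`. -/
def CurveOver (K₀ k K₁ : Type u) [Field K₀] [Field k] [Field K₁] [Algebra K₀ K₁]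
    [Algebra k K₁] : Prop :=
  IntermediateField.adjoin k (Set.range (algebraMap K₀ K₁)) = ⊤ ∧
    ∃ x : K₀, Transcendental k (algebraMap K₀ K₁ x)

/-- `K₀ / k` is a function field of one variable. -/
def IsCurve (k K₀ : Type u) [Field k] [Field K₀] [Algebra k K₀] : Prop :=
  ∃ x : K₀, Transcendental k x ∧ FiniteDimensional (IntermediateField.adjoin k {x}) K₀

/-- The curve over `k` with function field `K` is not rational over the algebraic closure of `k`. -/
def NotRationalCurve (k K : Type u) [Field k] [Field K] [Algebra k K] : Prop :=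
  ∀ z : AlgebraicClosure K,
    Subfield.closure ({c | IsAlgebraic k c} ∪ Set.range (algebraMap K (AlgebraicClosure K))) ≠
      Subfield.closure ({c | IsAlgebraic k c} ∪ {z})

/-- The twists `v^j yⁿ = g` of the cyclic covers `yⁿ = g`, `n ≥ 1`, by the powers of `v` (`n` does not
divide `j`) satisfy the section conjecture: if `K ⊇ K₀` is the function field of such a curve and it is
not rational over `kbar`, every Galois section of `K / k` is geometric. -/
def TwistsSatisfySC {k K₀ : Type u} [Field k] [Field K₀] [Algebra k K₀] (g : K₀) (v : k) : Prop :=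
  ∀ n j : ℕ, 0 < n → ¬ n ∣ j → ∀ (K : Type u) [Field K] [Algebra k K] [Algebra K₀ K] [IsScalarTower k K₀ K]
    (y : K), IntermediateField.adjoin K₀ {y} = ⊤ →
    algebraMap k K (v ^ j) * y ^ n = algebraMap K₀ K g → NotRationalCurve k K →
    ∀ s : GaloisSection k K, IsGeometric s

/-- `gcd(n, ord_O(g))` does not divide `j` for all places `O` of `K₀ / k` with residue field `k`: for every such
place some divisor `δ` of `n` does not divide `j` and divides the order of `g`, that is, `g` has the same value as
some `δ`-th power `x ^ δ`. -/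
def RationalOrders (k : Type u) {K₀ : Type u} [Field k] [Field K₀] [Algebra k K₀] (g : K₀)
    (n j : ℕ) : Prop :=
  ∀ O : ValuationSubring K₀, O ≠ ⊤ → (∀ c : k, algebraMap k K₀ c ∈ O) →
    (∀ z ∈ O, ∃ c : k, z - algebraMap k K₀ c ∈ O.nonunits) →
    ∃ δ : ℕ, δ ∣ n ∧ ¬ δ ∣ j ∧ ∃ x : K₀, O.valuation g = O.valuation (x ^ δ)

/-- The twists `v^j yⁿ = g`, where `n` does not divide `j` and the condition on the orders of `g` at the rational
places is satisfied, and all curves which map onto them, have no Galois sections: there is no Galois section of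
`K / k` if `K` contains `K₀` and an element `y` with `v^j yⁿ = g` and the curve with function field `K₀(y)` is not
rational over `kbar`. -/
def TwistsHaveNoSections {k K₀ : Type u} [Field k] [Field K₀] [Algebra k K₀] (g : K₀) (v : k) : Prop :=
  ∀ n j : ℕ, 0 < n → ¬ n ∣ j → RationalOrders k g n j →
    ∀ (K : Type u) [Field K] [Algebra k K] [Algebra K₀ K] [IsScalarTower k K₀ K] (y : K),
    algebraMap k K (v ^ j) * y ^ n = algebraMap K₀ K g →
    NotRationalCurve k (IntermediateField.adjoin K₀ {y}) → IsEmpty (GaloisSection k K)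

theorem closure_alg (k K : Type u) [Field k] [Field K] [Algebra k K] (A : Set (AlgebraicClosure K)) :
    Subfield.closure ({c | IsAlgebraic k c} ∪ A) =
      (IntermediateField.adjoin (kbar k K) A).toSubfield := by
  rw [← range_kbar]
  rfl

theorem not_rational {k K : Type u} [Field k] [Field K] [Algebra k K]
    (h : NotRationalCurve k K) (z : Pool.Agent.LT.MM k K) :
    IntermediateField.adjoin (kbar k K) {z} ≠ ⊤ := by
  intro hz
  apply h ((z : Pool.Agent.LT.UU k K) : AlgebraicClosure K)
  rw [closure_alg, closure_alg]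
  congr 1
  have h1 : IntermediateField.adjoin (kbar k K) (Set.range (algebraMap K (AlgebraicClosure K))) =
      (⊤ : IntermediateField (kbar k K) (Pool.Agent.LT.MM k K)).map
        ((Pool.Agent.LT.UU k K).val.comp (Pool.Agent.LT.MM k K).val) := by
    change KK k K = _
    ext w
    constructor
    · intro hw
      exact ⟨⟨⟨w, Pool.Agent.LT.KK_le_UU k K hw⟩,
        (IntermediateField.mem_restrict (Pool.Agent.LT.KK_le_UU k K) _).2 hw⟩, trivial, rfl⟩
    · rintro ⟨m, -, rfl⟩
      exact (IntermediateField.mem_restrict (Pool.Agent.LT.KK_le_UU k K) _).1 m.2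
  rw [h1, ← hz, IntermediateField.adjoin_map, Set.image_singleton]
  rfl

/-- An equality of values in terms of the order function. -/
theorem dvd_ord {k K₀ : Type u} [Field k] [CharZero k] [Field K₀] [Algebra k K₀]
    (hK₀ : IsCurve k K₀) {g : K₀} (hg : g ≠ 0) {n : ℕ} (hn : 0 < n) (O : VC.Place k K₀) {x : K₀}
    (hx : O.ring.valuation g = O.ring.valuation (x ^ n)) : (n : ℤ) ∣ VC.ord O.ring g := by
  obtain ⟨w, hw, π, hπ⟩ := Pool.Agent.TW.exists_val hK₀ O
  have hx0 : x ≠ 0 := by
    rintro rfl
    rw [zero_pow hn.ne', map_zero] at hx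
    exact hg ((map_eq_zero O.ring.valuation).1 hx)
  have hxn : x ^ n ≠ 0 := pow_ne_zero n hx0
  have hmem : ∀ z : K₀, z ∈ O.ring ↔ w z ≤ 1 := by
    intro z
    rw [← hw]
    exact Valuation.mem_valuationSubring_iff w z
  have h1 : w (g / x ^ n) ≤ 1 := by
    rw [← hmem, ← O.ring.valuation_le_one_iff, map_div₀, hx, div_self]
    exact (map_ne_zero O.ring.valuation).2 hxn
  have h2 : w (x ^ n / g) ≤ 1 := by
    rw [← hmem, ← O.ring.valuation_le_one_iff, map_div₀, hx, div_self]
    exact (map_ne_zero O.ring.valuation).2 hxn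
  have hwg : w g ≠ 0 := (map_ne_zero w).2 hg
  have hwx : w (x ^ n) ≠ 0 := (map_ne_zero w).2 hxn
  have h3 : w g = w (x ^ n) := by
    rw [map_div₀] at h1 h2
    exact le_antisymm ((div_le_one₀ (zero_lt_iff.2 hwx)).1 h1)
      ((div_le_one₀ (zero_lt_iff.2 hwg)).1 h2)
  rw [map_pow, VC.valuation_eq_exp_ord hw hπ hg,
    VC.valuation_eq_exp_ord hw hπ hx0, ← WithZero.exp_nsmul] at h3
  have h4 := WithZero.exp_injective h3
  refine ⟨VC.ord O.ring x, ?_⟩
  rw [nsmul_eq_mul] at h4
  linarith

theorem isCurve_over {k₀ K₀ k K₁ : Type u} [Field k₀] [CharZero k₀] [Field K₀] [Algebra k₀ K₀]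
    [Field k] [Field K₁] [Algebra k₀ k] [Algebra k K₁] [Algebra K₀ K₁] [Algebra k₀ K₁]
    [IsScalarTower k₀ k K₁] [IsScalarTower k₀ K₀ K₁] (hK₀ : IsCurve k₀ K₀)
    (hK₁ : CurveOver K₀ k K₁) : IsCurve k K₁ := by
  classical
  have hk0 : CharZero k := charZero_of_injective_algebraMap (algebraMap k₀ k).injective
  obtain ⟨x, z₀, f, S, hx, hgen, hdeg, hsep, hgood⟩ :=
    Pool.Agent.GC.exists_goodPoly (g := (1 : K₀)) hK₀ one_ne_zero
  exact (Pool.Agent.TWU.coord_map ⟨one_ne_zero, hK₀, hx, hgen, hdeg, hsep, hgood⟩ hK₁.1
    (Pool.Agent.TWU.transc_map hK₀ hx hK₁.2)).ff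

/-- **Galois sections of the twists of a cyclic cover, outside one thin set for all fields of constants.** -/
theorem result {F₀ k₀ K₀ : Type u} [Field F₀] [CharZero F₀] [Field k₀] [Algebra F₀ k₀]
    [Field K₀] [Algebra k₀ K₀]
    -- `k₀` is a finitely generated field
    (hk₀ : ∃ S : Finset k₀, Subfield.closure (S : Set k₀) = ⊤)
    -- one of the quotients of the `w_e` is transcendental over `F₀`
    {m : ℕ} {w : Fin (m + 1) → k₀} (hw : ∃ i l, Transcendental F₀ (w i / w l))
    -- an arbitrary cyclic cover of an arbitrary curve over `k₀`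
    (hK₀ : IsCurve k₀ K₀) {g : K₀} (hg : g ≠ 0) :
    -- there is one polynomial `Q` over `F₀`, without root
    ∃ Q : (MvPolynomial (Fin (m + 1)) F₀)[X], NoRoot Q ∧
      -- which does not depend on `X`, if two of the quotients are algebraically independent over `F₀`
      ((∃ i j l, AlgebraicIndependent F₀ ![w i / w l, w j / w l]) → Q.natDegree = 0) ∧
      -- such that the following holds for all composites `k = F k₀`, and the curve `K₁ = k K₀` over `k`
      ∀ (F k K₁ : Type u) [Field F] [Field k] [Field K₁] [Algebra F₀ F] [Algebra F₀ k] [Algebra F k]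
        [Algebra k₀ k] [IsScalarTower F₀ F k] [IsScalarTower F₀ k₀ k] [Algebra k K₁] [Algebra K₀ K₁]
        [Algebra k₀ K₁] [IsScalarTower k₀ k K₁] [IsScalarTower k₀ K₀ K₁],
        (∃ S : Finset F, Subfield.closure (S : Set F) = ⊤) → FreeComposite F₀ k₀ F k →
        CurveOver K₀ k K₁ → ∀ a : Fin (m + 1) → F, (∀ z : F, eval z (value Q a) ≠ 0) →
          TwistsHaveNoSections (algebraMap K₀ K₁ g)
            (∑ e, algebraMap F k (a e) * algebraMap k₀ k (w e)) ∧
          ((∃ i j l, AlgebraicIndependent F₀ ![w i / w l, w j / w l]) →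
            TwistsSatisfySC (algebraMap K₀ K₁ g)
              (∑ e, algebraMap F k (a e) * algebraMap k₀ k (w e))) := by
  classical
  have hk0' : CharZero k₀ := charZero_of_injective_algebraMap (algebraMap F₀ k₀).injective
  -- no sections
  have hno : ∀ (k K₁ : Type u) [Field k] [Field K₁] [Algebra k₀ k] [Algebra k K₁] [Algebra K₀ K₁]
      [Algebra k₀ K₁] [IsScalarTower k₀ k K₁] [IsScalarTower k₀ K₀ K₁], CurveOver K₀ k K₁ →
      ∀ v : k, Pool.Agent.TW.NoSecTwist (algebraMap K₀ K₁ g) v →
        TwistsHaveNoSections (algebraMap K₀ K₁ g) v := by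
    intro k K₁ _ _ _ _ _ _ _ _ hK₁ v h n j hn hj hR K _ _ _ _ y heq hrat
    have hk0 : CharZero k := charZero_of_injective_algebraMap (algebraMap k₀ k).injective
    have hg' : algebraMap K₀ K₁ g ≠ 0 := (_root_.map_ne_zero _).2 hg
    have h3 : IsCurve k K₁ := isCurve_over hK₀ hK₁
    refine Pool.Agent.TW.isEmpty_of_noSecTwist h hn hj (fun O hO => ?_) K y heq
      (not_rational hrat)
    obtain ⟨δ, hδn, hδj, x, hx⟩ := hR O.ring O.ne_top O.algebraMap_mem hO
    exact ⟨δ, hδn, hδj, dvd_ord h3 hg' (Nat.pos_of_dvd_of_pos hδn hn) O hx⟩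
  by_cases hB : ∃ i j l, AlgebraicIndependent F₀ ![w i / w l, w j / w l]
  · -- the hypersurface
    obtain ⟨i, j, l, hind⟩ := id hB
    obtain ⟨Ψ, hΨ, h⟩ := Pool.Agent.TWU.twists_hypersurfaceU hk₀ hind hK₀ hg
    refine ⟨C Ψ, Pool.Agent.UT.NoRoot.C hΨ, fun _ => natDegree_C Ψ, ?_⟩
    intro F k K₁ _ _ _ _ _ _ _ _ _ _ _ _ _ _ hF hfree hK₁ a ha
    have ha' : MvPolynomial.aeval a Ψ ≠ 0 := by
      have h1 := ha 0
      unfold value at h1
      rw [map_C, eval_C] at h1
      exact h1
    obtain ⟨h1, h2, -⟩ := h F k K₁ hF hfree.1 (fun {n x} hx => hfree.2 n x hx) hK₁.1 hK₁.2 a ha'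
    refine ⟨hno k K₁ hK₁ _ h2, fun _ => ?_⟩
    intro n j hn hj K _ _ _ _ y hgen heq hrat s
    exact h1 n j hn hj K y hgen heq (not_rational hrat) s
  · -- the thin set
    obtain ⟨i, l, hT⟩ := hw
    obtain ⟨Φ, hΦ, h⟩ := Pool.Agent.TWT.twists_thinU hk₀ hT hK₀ hg
    refine ⟨Φ, hΦ, fun hB' => absurd hB' hB, ?_⟩
    intro F k K₁ _ _ _ _ _ _ _ _ _ _ _ _ _ _ hF hfree hK₁ a ha
    refine ⟨hno k K₁ hK₁ _ (h F k K₁ hF hfree.1 (fun {n x} hx => hfree.2 n x hx) hK₁.1 hK₁.2 a
      fun z => ?_), fun hB' => absurd hB' hB⟩
    have h1 := ha z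
    unfold value at h1
    rw [eval_map] at h1
    exact h1

end Pool.Agent.Results.MP_e66f84_ag.TwistsUniform
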