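import Pool.Agent.Helper10.TWX.X19

/-!
# Galois sections of the twists of cyclic covers, uniformly in the field of constants

Let `F₀ ⊂ k₀` be fields of characteristic zero, `k₀` finitely generated, and let `w_0, …, w_m` be elements of `k₀`
such that one of the quotients `w_i / w_l` is transcendental over `F₀`.  For example `k₀` is the function field of a
variety over `F₀` and `w_0, …, w_m` is a basis of a Riemann-Roch space `L(D)` of dimension at least two, or
`k₀ = F₀(t_1, …, t_r)` and the `w_e` are the monomials of degree at most `m ≥ 1`.

Let `X` be a curve over `k₀` with a faithful action of the group scheme `μ_n`, `n ≥ 2`, which is not rational over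
the algebraic closure.  The quotient is a curve with function field `K₀ / k₀`, the function field of `X` is `K₀(y)`
with `yⁿ = g ∈ K₀`, and the twists of `X` by the classes of `H¹(k, μ_n) = k* / k*ⁿ`, `k` an extension of `k₀`, are
the curves `v yⁿ = g` over `k`.

Then there is ONE polynomial `Q(a, X)`, with coefficients in `F₀`, in `X` and in the `m + 1` variables
`a = (a_0, …, a_m)`, which has no root in the field of rational functions `F̄₀(a)`, such that the following holds for
all finitely generated extension fields `F` of `F₀` and all composites `k = F k₀` of `F` and `k₀` over `F₀` in which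
`F` and `k₀` are algebraically free over `F₀` (for `k₀ = F₀(t_1, …, t_r)`: for all `F` and for
`k = F(t_1, …, t_r)`).  Let `K₁ = k K₀` be the function field of the curve `K₀` over `k`, and let `v = ∑ a_e w_e` be
an element of the `F`-vector space generated by the `w_e` such that `Q(a, X)` has no root in `F`.  Then for all
`n ≥ 1` and all `j`:

* Let `k'` be any finite extension of `k`.  If the twist `v^j yⁿ = g` over `k'`, or any curve over `k'` which maps
  onto it, has a Galois section, then the degree `[k' : k]` is a sum of numbers of the form `n / gcd(n, j)` and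
  `[κ(O) : k] δ / gcd(δ, j)`, where `O` is a closed point of the curve `K₁` over `k`, `κ(O)` is its residue field and
  `δ = gcd(n, ord_O(g))`.
* If two quotients `w_i / w_l`, `w_j / w_l` are algebraically independent over `F₀` and `n` does not divide `j`, then
  **every** Galois section of the twist `v^j yⁿ = g` over `k` is geometric, that is, it comes from a rational point;
  there is no condition on `g`.

The section conjecture predicts the first assertion for general `v`: a section over `k'` should come from a point of
the twist over `k'`, and for general `v` the degrees of the closed points of the twist are sums of these numbers (for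
`gcd(δ, j) = 1` the points of the twist over `O` have the degree `[κ(O) : k] δ`).  For `k' = k` the assertion says: if
`n` does not divide `j` and `gcd(n, ord_O(g))` does not divide `j` for all `k`-rational places `O`, then the twist has
no Galois section, and neither has any curve over `k` which maps onto it.  If for example `n = p` is a prime number
and the order of `g` is divisible by `p` at all places of `K₀`, so that the covering `yᵖ = g` is étale, then all
finite extensions `k'` of `k` over which the twist `v yᵖ = g` has a Galois section are of degree divisible by `p`.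

The points `a` over `F` for which `Q(a, X)` has a root in `F` form a thin set in the sense of Serre, which is given by
the same polynomial `Q` for all fields of constants `F`.  If two quotients are algebraically independent as in the
second assertion, `Q` does not depend on `X`: the exceptional twists are in one hypersurface for all `F`.

There is no condition on the curve and on the cover; the genus of the twist may also be one.
-/

universe u

namespace Pool.Agent.Results.MP_e66f84_ag.TwistsUniform

open Polynomial Pool.Agent.Helper91.Sect Pool.Agent.SC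

/-- The polynomial `Q(a, X)`, whose coefficients are polynomials over `F₀` in the variables `a`, has no root in the
field of rational functions in these variables over the algebraic closure of `F₀`. -/
def NoRoot {F₀ : Type u} [Field F₀] {I : Type} (Q : (MvPolynomial I F₀)[X]) : Prop :=
  ∀ r : FractionRing (MvPolynomial I (AlgebraicClosure F₀)),
    eval₂ ((algebraMap (MvPolynomial I (AlgebraicClosure F₀))
      (FractionRing (MvPolynomial I (AlgebraicClosure F₀)))).comp
        (MvPolynomial.map (algebraMap F₀ (AlgebraicClosure F₀)))) r Q ≠ 0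

/-- The polynomial `Q(a, X)` in one variable `X` over `F`, for a point `a` over `F`. -/
noncomputable def value {F₀ F : Type u} [Field F₀] [Field F] [Algebra F₀ F] {I : Type}
    (Q : (MvPolynomial I F₀)[X]) (a : I → F) : F[X] :=
  Q.map (MvPolynomial.aeval a : MvPolynomial I F₀ →ₐ[F₀] F).toRingHom

/-- The field `k` is a composite of `F` and `k₀` over `F₀`, in which `F` and `k₀` are algebraically free over `F₀`:
it is generated by `F` and `k₀`, and elements of `k₀` which are algebraically independent over `F₀` are
algebraically independent over `F`. -/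
def FreeComposite (F₀ k₀ F k : Type u) [Field F₀] [Field k₀] [Field F] [Field k] [Algebra F₀ k₀]
    [Algebra F k] [Algebra k₀ k] : Prop :=
  IntermediateField.adjoin F (Set.range (algebraMap k₀ k)) = ⊤ ∧
    ∀ (n : ℕ) (x : Fin n → k₀), AlgebraicIndependent F₀ x →
      AlgebraicIndependent F fun i => algebraMap k₀ k (x i)

/-- `K₁` is the function field over `k` of the curve with function field `K₀ / k₀`: it is generated by `k` and `K₀`,
and some element of `K₀` is transcendental over `k`. -/
def CurveOver (K₀ k K₁ : Type u) [Field K₀] [Field k] [Field K₁] [Algebra K₀ K₁]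
    [Algebra k K₁] : Prop :=
  IntermediateField.adjoin k (Set.range (algebraMap K₀ K₁)) = ⊤ ∧
    ∃ x : K₀, Transcendental k (algebraMap K₀ K₁ x)

/-- `K₀ / k` is a function field of one variable. -/
def IsCurve (k K₀ : Type u) [Field k] [Field K₀] [Algebra k K₀] : Prop :=
  ∃ x : K₀, Transcendental k x ∧ FiniteDimensional (IntermediateField.adjoin k {x}) K₀

/-- The curve over `k` with function field `K` is not rational over the algebraic closure of `k`. -/
def NotRationalCurve (k K : Type u) [Field k] [Field K] [Algebra k K] : Prop :=
  ∀ z : AlgebraicClosure K,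
    Subfield.closure ({c | IsAlgebraic k c} ∪ Set.range (algebraMap K (AlgebraicClosure K))) ≠
      Subfield.closure ({c | IsAlgebraic k c} ∪ {z})

/-- The twists `v^j yⁿ = g` of the cyclic covers `yⁿ = g`, `n ≥ 1`, by the powers of `v` (`n` does not
divide `j`) satisfy the section conjecture: if `K ⊇ K₀` is the function field of such a curve and it is
not rational over `kbar`, every Galois section of `K / k` is geometric. -/
def TwistsSatisfySC {k K₀ : Type u} [Field k] [Field K₀] [Algebra k K₀] (g : K₀) (v : k) : Prop :=
  ∀ n j : ℕ, 0 < n → ¬ n ∣ j → ∀ (K : Type u) [Field K] [Algebra k K] [Algebra K₀ K] [IsScalarTower k K₀ K]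
    (y : K), IntermediateField.adjoin K₀ {y} = ⊤ →
    algebraMap k K (v ^ j) * y ^ n = algebraMap K₀ K g → NotRationalCurve k K →
    ∀ s : GaloisSection k K, IsGeometric s

/-- The residue field of the place `O ⊇ k` of `K₀` has degree `r` over `k`: it is generated by the residue of an
element `θ` of `O`, and the residue is a root of an irreducible polynomial of degree `r`. -/
def ResidueDegree (k : Type u) {K₀ : Type u} [Field k] [Field K₀] [Algebra k K₀]
    (O : ValuationSubring K₀) (r : ℕ) : Prop :=
  ∃ θ ∈ O, ∃ q : k[X], Irreducible q ∧ q.natDegree = r ∧ aeval θ q ∈ O.nonunits ∧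
    ∀ z ∈ O, ∃ h : k[X], z - aeval θ h ∈ O.nonunits

/-- `δ = gcd(n, ord_O(g))`: the divisors of `δ` are the divisors `e` of `n` such that `ord_O(g)` is divisible by `e`,
that is, `g` has the same value as some `e`-th power `x ^ e`. -/
def OrderGcd {K₀ : Type u} [Field K₀] (O : ValuationSubring K₀) (g : K₀) (n δ : ℕ) : Prop :=
  ∀ e : ℕ, e ∣ δ ↔ e ∣ n ∧ ∃ x : K₀, O.valuation g = O.valuation (x ^ e)

/-- `d = n / gcd(n, j)`, or `d = r δ / gcd(δ, j)` for a place `O` of `K₀ / k` of degree `r` and
`δ = gcd(n, ord_O(g))`. -/
def PointDegree (k : Type u) {K₀ : Type u} [Field k] [Field K₀] [Algebra k K₀] (g : K₀)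
    (n j d : ℕ) : Prop :=
  d = n / Nat.gcd n j ∨ ∃ (O : ValuationSubring K₀) (r δ : ℕ), O ≠ ⊤ ∧
    (∀ c : k, algebraMap k K₀ c ∈ O) ∧ ResidueDegree k O r ∧ OrderGcd O g n δ ∧
      d = r * (δ / Nat.gcd δ j)

/-- The degrees of the fields over which the twists `v^j yⁿ = g` have Galois sections: let `k'` be a finite extension
of `k`, let `K / k'` be an extension which contains `K₀` and an element `y` with `v^j yⁿ = g`, and suppose that the
curve with function field `K₀(y)` is not rational over `kbar`.  If `K / k'` has a Galois section, then `[k' : k]` is a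
sum of numbers `d` with `PointDegree`. -/
def TwistsHaveSectionDegrees {k K₀ : Type u} [Field k] [Field K₀] [Algebra k K₀] (g : K₀)
    (v : k) : Prop :=
  ∀ n j : ℕ, 0 < n →
    ∀ (k' K : Type u) [Field k'] [Algebra k k'] [FiniteDimensional k k'] [Field K] [Algebra k' K]
      [Algebra k K] [IsScalarTower k k' K] [Algebra K₀ K] [IsScalarTower k K₀ K] (y : K),
    algebraMap k K (v ^ j) * y ^ n = algebraMap K₀ K g →
    NotRationalCurve k (IntermediateField.adjoin K₀ {y}) → Nonempty (GaloisSection k' K) →
    Module.finrank k k' ∈ AddSubmonoid.closure {d | PointDegree k g n j d}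

theorem closure_alg (k K : Type u) [Field k] [Field K] [Algebra k K] (A : Set (AlgebraicClosure K)) :
    Subfield.closure ({c | IsAlgebraic k c} ∪ A) =
      (IntermediateField.adjoin (kbar k K) A).toSubfield := by
  rw [← range_kbar]
  rfl

theorem not_rational {k K : Type u} [Field k] [Field K] [Algebra k K]
    (h : NotRationalCurve k K) (z : Pool.Agent.LT.MM k K) :
    IntermediateField.adjoin (kbar k K) {z} ≠ ⊤ := by
  intro hz
  apply h ((z : Pool.Agent.LT.UU k K) : AlgebraicClosure K)
  rw [closure_alg, closure_alg]
  congr 1
  have h1 : IntermediateField.adjoin (kbar k K) (Set.range (algebraMap K (AlgebraicClosure K))) =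
      (⊤ : IntermediateField (kbar k K) (Pool.Agent.LT.MM k K)).map
        ((Pool.Agent.LT.UU k K).val.comp (Pool.Agent.LT.MM k K).val) := by
    change KK k K = _
    ext w
    constructor
    · intro hw
      exact ⟨⟨⟨w, Pool.Agent.LT.KK_le_UU k K hw⟩,
        (IntermediateField.mem_restrict (Pool.Agent.LT.KK_le_UU k K) _).2 hw⟩, trivial, rfl⟩
    · rintro ⟨m, -, rfl⟩
      exact (IntermediateField.mem_restrict (Pool.Agent.LT.KK_le_UU k K) _).1 m.2
  rw [h1, ← hz, IntermediateField.adjoin_map, Set.image_singleton]
  rfl

/-- **Galois sections of the twists of a cyclic cover, outside one thin set for all fields of constants.** -/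
theorem result {F₀ k₀ K₀ : Type u} [Field F₀] [CharZero F₀] [Field k₀] [Algebra F₀ k₀]
    [Field K₀] [Algebra k₀ K₀]
    -- `k₀` is a finitely generated field
    (hk₀ : ∃ S : Finset k₀, Subfield.closure (S : Set k₀) = ⊤)
    -- one of the quotients of the `w_e` is transcendental over `F₀`
    {m : ℕ} {w : Fin (m + 1) → k₀} (hw : ∃ i l, Transcendental F₀ (w i / w l))
    -- an arbitrary cyclic cover of an arbitrary curve over `k₀`
    (hK₀ : IsCurve k₀ K₀) {g : K₀} (hg : g ≠ 0) :
    -- there is one polynomial `Q` over `F₀`, without root
    ∃ Q : (MvPolynomial (Fin (m + 1)) F₀)[X], NoRoot Q ∧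
      -- which does not depend on `X`, if two of the quotients are algebraically independent over `F₀`
      ((∃ i j l, AlgebraicIndependent F₀ ![w i / w l, w j / w l]) → Q.natDegree = 0) ∧
      -- such that the following holds for all composites `k = F k₀`, and the curve `K₁ = k K₀` over `k`
      ∀ (F k K₁ : Type u) [Field F] [Field k] [Field K₁] [Algebra F₀ F] [Algebra F₀ k] [Algebra F k]
        [Algebra k₀ k] [IsScalarTower F₀ F k] [IsScalarTower F₀ k₀ k] [Algebra k K₁] [Algebra K₀ K₁]
        [Algebra k₀ K₁] [IsScalarTower k₀ k K₁] [IsScalarTower k₀ K₀ K₁],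
        (∃ S : Finset F, Subfield.closure (S : Set F) = ⊤) → FreeComposite F₀ k₀ F k →
        CurveOver K₀ k K₁ → ∀ a : Fin (m + 1) → F, (∀ z : F, eval z (value Q a) ≠ 0) →
          TwistsHaveSectionDegrees (algebraMap K₀ K₁ g)
            (∑ e, algebraMap F k (a e) * algebraMap k₀ k (w e)) ∧
          ((∃ i j l, AlgebraicIndependent F₀ ![w i / w l, w j / w l]) →
            TwistsSatisfySC (algebraMap K₀ K₁ g)
              (∑ e, algebraMap F k (a e) * algebraMap k₀ k (w e))) := by
  classical
  by_cases hB : ∃ i j l, AlgebraicIndependent F₀ ![w i / w l, w j / w l]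
  · -- the hypersurface
    obtain ⟨i, j, l, hind⟩ := id hB
    obtain ⟨Ψ, hΨ, h⟩ := Pool.Agent.TWU.twists_hypersurfaceU hk₀ hind hK₀ hg
    obtain ⟨Ψ', hΨ', h'⟩ := Pool.Agent.TWX.degs_hypersurfaceU hk₀ hind hK₀ hg
    refine ⟨C (Ψ * Ψ'), Pool.Agent.UT.NoRoot.C (mul_ne_zero hΨ hΨ'), fun _ => natDegree_C _, ?_⟩
    intro F k K₁ _ _ _ _ _ _ _ _ _ _ _ _ _ _ hF hfree hK₁ a ha
    have ha' : MvPolynomial.aeval a (Ψ * Ψ') ≠ 0 := by
      have h1 := ha 0
      unfold value at h1
      rw [map_C, eval_C] at h1
      exact h1
    rw [map_mul] at ha'
    obtain ⟨ha1, ha2⟩ := mul_ne_zero_iff.1 ha'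
    obtain ⟨h1, -, -⟩ := h F k K₁ hF hfree.1 (fun {n x} hx => hfree.2 n x hx) hK₁.1 hK₁.2 a ha1
    refine ⟨h' F k K₁ hF hfree.1 (fun {n x} hx => hfree.2 n x hx) hK₁.1 hK₁.2 a ha2, fun _ => ?_⟩
    intro n j hn hj K _ _ _ _ y hgen heq hrat s
    exact h1 n j hn hj K y hgen heq (not_rational hrat) s
  · -- the thin set
    obtain ⟨i, l, hT⟩ := hw
    obtain ⟨Φ, hΦ, h⟩ := Pool.Agent.TWX.degs_thinU hk₀ hT hK₀ hg
    refine ⟨Φ, hΦ, fun hB' => absurd hB' hB, ?_⟩
    intro F k K₁ _ _ _ _ _ _ _ _ _ _ _ _ _ _ hF hfree hK₁ a ha
    refine ⟨h F k K₁ hF hfree.1 (fun {n x} hx => hfree.2 n x hx) hK₁.1 hK₁.2 a fun z => ?_,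
      fun hB' => absurd hB' hB⟩
    have h1 := ha z
    unfold value at h1
    rw [eval_map] at h1
    exact h1

end Pool.Agent.Results.MP_e66f84_ag.TwistsUniform
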