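import Pool.Agent.Helper10.RP.V4
import Pool.Agent.Helper10.SE.Final

/-!
# Galois sections of the twists in families of cyclic covers

Let `F₀ ⊂ k₀` be fields of characteristic zero, `k₀` finitely generated, and let `w_0, …, w_m` be elements of `k₀`
such that one of the quotients `w_i / w_l` is transcendental over `F₀`.  For example `k₀` is the function field of a
variety over `F₀` and `w_0, …, w_m` is a basis of a Riemann-Roch space `L(D)` of dimension at least two, or
`k₀ = F₀(t_1, …, t_d)` and the `w_e` are the monomials of degree at most `m ≥ 1`.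

Consider an arbitrary family of cyclic covers of curves, with parameters `a = (a_1, …, a_N)`: the curves are
`M(a, x, z) = 0` for an irreducible polynomial `M ∈ k₀[A_1, …, A_N][X][Z]`, the functions on them are
`g = ∏ P_s(a, x, z) ^ e_s` for polynomials `P_s` which are not divisible by `M` and all integers `e_s`, and the cyclic
covers are `yⁿ = g` for all `n ≥ 1`.  Every curve `X` over `k₀` with a faithful action of the group scheme `μ_n` is
of this form (without parameters: `X → X / μ_n`), and so are the families of all superelliptic curves
`yⁿ = ∏ P_s(x) ^ e_s` with `P_s ∈ L(D)[x]` monic of given degrees (the parameters are the coefficients, `M = Z`), of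
all `μ_n`-covers of all plane curves of given degree, and so on.

The twists of `yⁿ = g` by the classes of `H¹(k, μ_n) = k* / k*ⁿ` are the curves `v yⁿ = g`.  The theorem describes the
Galois sections of the general twist of the general member of the family, when `v` runs through the vector space
generated by the `w_e` and the parameters are constants.

There is ONE polynomial `Q(a, b, X)`, with coefficients in `F₀`, in `X` and in the `N + m + 1` variables
`a = (a_1, …, a_N)`, `b = (b_0, …, b_m)`, which has no root in the field of rational functions `F̄₀(a, b)`, such that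
the following holds for all finitely generated extension fields `F` of `F₀` and all composites `k = F k₀` of `F` and
`k₀` over `F₀` in which `F` and `k₀` are algebraically free over `F₀` (for `k₀ = F₀(t_1, …, t_d)`: for all `F` and for
`k = F(t_1, …, t_d)`), and for all points `(a, b)` over `F` such that `Q(a, b, X)` has no root in `F`.  Let
`v = ∑ b_e w_e`, let `K₁ = k(x, z)` be the function field of (a component of) the curve `M(a, x, z) = 0` over `k`, and
let `g = ∏ P_s(a, x, z) ^ e_s` with any integers `e_s`.  Then for all `n ≥ 1` and `j ≥ 0`:

* Let `k'` be any finite extension of `k`.  If the twist `v^j yⁿ = g` over `k'`, or any curve over `k'` which maps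
  onto it, has a Galois section, then the degree `[k' : k]` is a sum of numbers of the form `n / gcd(n, j)` and
  `[κ(O) : k] δ / gcd(δ, j)`, where `O` is a closed point of the curve `K₁` over `k`, `κ(O)` is its residue field and
  `δ = gcd(n, ord_O(g))`.
* If two quotients `w_i / w_l`, `w_h / w_l` are algebraically independent over `F₀` and `n` does not divide `j`, then
  **every** Galois section of the twist `v^j yⁿ = g` over `k` is geometric, and more precisely it comes from a rational
  point of the twist over a `k`-rational place `O` of `K₁` such that `gcd(n, ord_O(g))` divides `j`.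

There is no condition on the curve, on `g` and on the cover (besides that the curve `K₁(y)` is not rational over the
algebraic closure; its genus may also be one).  The second assertion determines all Galois sections.  For example: the
curve `v y² = x⁵ + c₄ x⁴ + … + c₀` of genus two with `c_q` and `v` in a space `L(D)` on a variety of dimension at least
two such that the quotients of the elements of `L(D)` have transcendence degree at least two: outside one hypersurface
in the space of all coefficients, for all fields of constants `F`, every Galois section is the section of the point at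
infinity or of a point `(x, 0)`; if the polynomial on the right hand side has no root in `k`, there is exactly one
Galois section up to conjugation, the one of the point at infinity.  The same holds for constants `c_q ∈ F`, that is for
the twists by `v` of all curves `y² = x⁵ + c₄ x⁴ + … + c₀` over `F` outside a hypersurface.

The section conjecture predicts the first assertion for general `v`: a section over `k'` should come from a point of
the twist over `k'`, and for general `v` the degrees of the closed points of the twist are sums of these numbers (for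
`gcd(δ, j) = 1` the points of the twist over `O` have the degree `[κ(O) : k] δ`).  For `k' = k` the assertion says: if
`n` does not divide `j` and `gcd(n, ord_O(g))` does not divide `j` for all `k`-rational places `O`, then the twist has
no Galois section, and neither has any curve over `k` which maps onto it.  If `n` is a prime number, it says: if the twist,
or any curve over `k` which maps onto it, has a Galois section, then the twist has a `k`-rational point.

The points `(a, b)` over `F` for which `Q(a, b, X)` has a root in `F` form a thin set in the sense of Serre, which is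
given by the same polynomial `Q` for all fields of constants `F`.  If two quotients are algebraically independent as
in the second assertion, `Q` does not depend on `X`: the exceptional members and twists are in one hypersurface.
-/

universe u

namespace Pool.Agent.Helper10.Keep.TwistsUniformV6

open Polynomial Pool.Agent.Helper91.Sect Pool.Agent.SC

/-- The polynomial `Q(a, X)`, whose coefficients are polynomials over `F₀` in the variables `a`, has no root in the
field of rational functions in these variables over the algebraic closure of `F₀`. -/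
def NoRoot {F₀ : Type u} [Field F₀] {I : Type} (Q : (MvPolynomial I F₀)[X]) : Prop :=
  ∀ r : FractionRing (MvPolynomial I (AlgebraicClosure F₀)),
    eval₂ ((algebraMap (MvPolynomial I (AlgebraicClosure F₀))
      (FractionRing (MvPolynomial I (AlgebraicClosure F₀)))).comp
        (MvPolynomial.map (algebraMap F₀ (AlgebraicClosure F₀)))) r Q ≠ 0

/-- The polynomial `Q(a, X)` in one variable `X` over `F`, for a point `a` over `F`. -/
noncomputable def value {F₀ F : Type u} [Field F₀] [Field F] [Algebra F₀ F] {I : Type}
    (Q : (MvPolynomial I F₀)[X]) (a : I → F) : F[X] :=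
  Q.map (MvPolynomial.aeval a : MvPolynomial I F₀ →ₐ[F₀] F).toRingHom

/-- The field `k` is a composite of `F` and `k₀` over `F₀`, in which `F` and `k₀` are algebraically free over `F₀`:
it is generated by `F` and `k₀`, and elements of `k₀` which are algebraically independent over `F₀` are
algebraically independent over `F`. -/
def FreeComposite (F₀ k₀ F k : Type u) [Field F₀] [Field k₀] [Field F] [Field k] [Algebra F₀ k₀]
    [Algebra F k] [Algebra k₀ k] : Prop :=
  IntermediateField.adjoin F (Set.range (algebraMap k₀ k)) = ⊤ ∧
    ∀ (n : ℕ) (x : Fin n → k₀), AlgebraicIndependent F₀ x →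
      AlgebraicIndependent F fun i => algebraMap k₀ k (x i)

/-- The value `M(a, x, z)` of a polynomial `M ∈ k₀[A_1, …, A_N][X][Z]`; the parameters `a` are elements of `F`, and
`x`, `z` are elements of an extension `K₁` of the composite `k` of `F` and `k₀`. -/
noncomputable def val {k₀ F K₁ : Type u} (k : Type u) [Field k₀] [Field F] [Field k] [Field K₁]
    [Algebra k₀ k] [Algebra F k] [Algebra k K₁] {N : ℕ} (a : Fin N → F) (x z : K₁)
    (M : (MvPolynomial (Fin N) k₀)[X][X]) : K₁ :=
  eval₂ (eval₂RingHom (MvPolynomial.eval₂Hom ((algebraMap k K₁).comp (algebraMap k₀ k))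
    fun q => algebraMap k K₁ (algebraMap F k (a q))) x) z M

/-- The curve over `k` with function field `K` is not rational over the algebraic closure of `k`. -/
def NotRationalCurve (k K : Type u) [Field k] [Field K] [Algebra k K] : Prop :=
  ∀ z : AlgebraicClosure K,
    Subfield.closure ({c | IsAlgebraic k c} ∪ Set.range (algebraMap K (AlgebraicClosure K))) ≠
      Subfield.closure ({c | IsAlgebraic k c} ∪ {z})

/-- `δ = gcd(n, ord_O(g))`: the divisors of `δ` are the divisors `e` of `n` such that `ord_O(g)` is divisible by `e`,
that is, `g` has the same value as some `e`-th power `x ^ e`. -/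
def OrderGcd {K₀ : Type u} [Field K₀] (O : ValuationSubring K₀) (g : K₀) (n δ : ℕ) : Prop :=
  ∀ e : ℕ, e ∣ δ ↔ e ∣ n ∧ ∃ x : K₀, O.valuation g = O.valuation (x ^ e)

/-- The Galois section `s` of the curve `K` over `k` comes from a rational point, and this point lies over a place `O`
of `K₀ ⊆ K` such that `gcd(n, ord_O(g))` divides `j`: the image of `s` stabilises a nontrivial valuation ring `V` of
`Kur` containing `kbar` (a point of the universal cover of the curve), the place of `K` below `V` has the residue field
`k` (it is a `k`-rational point of the curve), and `O` is the place of `K₀` below `V`. -/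
def ComesFromPoint {k K₀ K : Type u} [Field k] [Field K₀] [Field K] [Algebra k K₀] [Algebra k K]
    [Algebra K₀ K] (g : K₀) (n j : ℕ) (s : GaloisSection k K) : Prop :=
  ∃ V : ValuationSubring (Kur k K), V ≠ ⊤ ∧ (∀ c : Kur k K, IsAlgebraic k c → c ∈ V) ∧
    (∀ (γ : Gk k K) (w : Kur k K), s.toHom γ w ∈ V ↔ w ∈ V) ∧
    (∀ z : K, algebraMap K (Kur k K) z ∈ V →
      ∃ c : k, algebraMap K (Kur k K) (z - algebraMap k K c) ∈ V.nonunits) ∧
    ∃ δ : ℕ, OrderGcd (V.comap ((algebraMap K (Kur k K)).comp (algebraMap K₀ K))) g n δ ∧ δ ∣ j

/-- The twists `v^j yⁿ = g` of the cyclic covers `yⁿ = g`, `n ≥ 1`, by the powers of `v` (`n` does not divide `j`)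
satisfy the section conjecture: if `K ⊇ K₀` is the function field of such a curve and it is not rational over `kbar`,
every Galois section of `K / k` comes from a rational point, which lies over a place `O` of `K₀` such that
`gcd(n, ord_O(g))` divides `j`. -/
def TwistsSatisfySC {k K₀ : Type u} [Field k] [Field K₀] [Algebra k K₀] (g : K₀) (v : k) : Prop :=
  ∀ n j : ℕ, 0 < n → ¬ n ∣ j → ∀ (K : Type u) [Field K] [Algebra k K] [Algebra K₀ K] [IsScalarTower k K₀ K]
    (y : K), IntermediateField.adjoin K₀ {y} = ⊤ →
    algebraMap k K (v ^ j) * y ^ n = algebraMap K₀ K g → NotRationalCurve k K →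
    ∀ s : GaloisSection k K, ComesFromPoint g n j s

/-- The residue field of the place `O ⊇ k` of `K₀` has degree `r` over `k`: it is generated by the residue of an
element `θ` of `O`, and the residue is a root of an irreducible polynomial of degree `r`. -/
def ResidueDegree (k : Type u) {K₀ : Type u} [Field k] [Field K₀] [Algebra k K₀]
    (O : ValuationSubring K₀) (r : ℕ) : Prop :=
  ∃ θ ∈ O, ∃ q : k[X], Irreducible q ∧ q.natDegree = r ∧ aeval θ q ∈ O.nonunits ∧
    ∀ z ∈ O, ∃ h : k[X], z - aeval θ h ∈ O.nonunits

/-- `d = n / gcd(n, j)`, or `d = r δ / gcd(δ, j)` for a place `O` of `K₀ / k` of degree `r` and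
`δ = gcd(n, ord_O(g))`. -/
def PointDegree (k : Type u) {K₀ : Type u} [Field k] [Field K₀] [Algebra k K₀] (g : K₀)
    (n j d : ℕ) : Prop :=
  d = n / Nat.gcd n j ∨ ∃ (O : ValuationSubring K₀) (r δ : ℕ), O ≠ ⊤ ∧
    (∀ c : k, algebraMap k K₀ c ∈ O) ∧ ResidueDegree k O r ∧ OrderGcd O g n δ ∧
      d = r * (δ / Nat.gcd δ j)

/-- The degrees of the fields over which the twists `v^j yⁿ = g` have Galois sections: let `k'` be a finite extension
of `k`, let `K / k'` be an extension which contains `K₀` and an element `y` with `v^j yⁿ = g`, and suppose that the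
curve with function field `K₀(y)` is not rational over `kbar`.  If `K / k'` has a Galois section, then `[k' : k]` is a
sum of numbers `d` with `PointDegree`. -/
def TwistsHaveSectionDegrees {k K₀ : Type u} [Field k] [Field K₀] [Algebra k K₀] (g : K₀)
    (v : k) : Prop :=
  ∀ n j : ℕ, 0 < n →
    ∀ (k' K : Type u) [Field k'] [Algebra k k'] [FiniteDimensional k k'] [Field K] [Algebra k' K]
      [Algebra k K] [IsScalarTower k k' K] [Algebra K₀ K] [IsScalarTower k K₀ K] (y : K),
    algebraMap k K (v ^ j) * y ^ n = algebraMap K₀ K g →
    NotRationalCurve k (IntermediateField.adjoin K₀ {y}) → Nonempty (GaloisSection k' K) →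
    Module.finrank k k' ∈ AddSubmonoid.closure {d | PointDegree k g n j d}

theorem closure_alg (k K : Type u) [Field k] [Field K] [Algebra k K] (A : Set (AlgebraicClosure K)) :
    Subfield.closure ({c | IsAlgebraic k c} ∪ A) =
      (IntermediateField.adjoin (kbar k K) A).toSubfield := by
  rw [← range_kbar]
  rfl

theorem not_rational {k K : Type u} [Field k] [Field K] [Algebra k K]
    (h : NotRationalCurve k K) (z : Pool.Agent.LT.MM k K) :
    IntermediateField.adjoin (kbar k K) {z} ≠ ⊤ := by
  intro hz
  apply h ((z : Pool.Agent.LT.UU k K) : AlgebraicClosure K)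
  rw [closure_alg, closure_alg]
  congr 1
  have h1 : IntermediateField.adjoin (kbar k K) (Set.range (algebraMap K (AlgebraicClosure K))) =
      (⊤ : IntermediateField (kbar k K) (Pool.Agent.LT.MM k K)).map
        ((Pool.Agent.LT.UU k K).val.comp (Pool.Agent.LT.MM k K).val) := by
    change KK k K = _
    ext w
    constructor
    · intro hw
      exact ⟨⟨⟨w, Pool.Agent.LT.KK_le_UU k K hw⟩,
        (IntermediateField.mem_restrict (Pool.Agent.LT.KK_le_UU k K) _).2 hw⟩, trivial, rfl⟩
    · rintro ⟨m, -, rfl⟩
      exact (IntermediateField.mem_restrict (Pool.Agent.LT.KK_le_UU k K) _).1 m.2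
  rw [h1, ← hz, IntermediateField.adjoin_map, Set.image_singleton]
  rfl

theorem val_eq {k₀ F k K₁ : Type u} [Field k₀] [Field F] [Field k] [Field K₁] [Algebra k₀ k]
    [Algebra F k] [Algebra k K₁] {N : ℕ} (a : Fin N → F) (x z : K₁)
    (M : (MvPolynomial (Fin N) k₀)[X][X]) :
    val k a x z M = Pool.Agent.SE.ev3 (algebraMap k₀ k) (fun q => algebraMap F k (a q)) x z M := by
  rw [Pool.Agent.SE.ev3_eq, eval_map]
  unfold val
  congr 1
  apply Polynomial.ringHom_ext
  · intro c
    rw [coe_eval₂RingHom, eval₂_C, Pool.Agent.SE.ev3x_apply, map_C, aeval_C]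
    have h : MvPolynomial.eval₂Hom ((algebraMap k K₁).comp (algebraMap k₀ k))
        (fun q => algebraMap k K₁ (algebraMap F k (a q))) = (algebraMap k K₁).comp
        (Pool.Agent.SE.evp (algebraMap k₀ k) fun q => algebraMap F k (a q)) := by
      apply MvPolynomial.ringHom_ext
      · intro z
        rw [MvPolynomial.eval₂Hom_C, RingHom.comp_apply, RingHom.comp_apply, Pool.Agent.SE.evp_C]
      · intro q
        rw [MvPolynomial.eval₂Hom_X', RingHom.comp_apply, Pool.Agent.SE.evp_X]
    rw [h]
    rfl
  · rw [coe_eval₂RingHom, eval₂_X, Pool.Agent.SE.ev3x_apply, map_X, aeval_X]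

/-- **Galois sections of the twists in families of cyclic covers, outside one thin set (hypersurface).** -/
theorem result {F₀ k₀ : Type u} [Field F₀] [CharZero F₀] [Field k₀] [Algebra F₀ k₀]
    -- `k₀` is a finitely generated field
    (hk₀ : ∃ S : Finset k₀, Subfield.closure (S : Set k₀) = ⊤)
    -- one of the quotients of the `w_e` is transcendental over `F₀`
    {m : ℕ} {w : Fin (m + 1) → k₀} (hw : ∃ i l, Transcendental F₀ (w i / w l))
    -- an arbitrary family of curves `M(a, x, z) = 0`, and functions `P_s(a, x, z)` on them
    {N r : ℕ} {M : (MvPolynomial (Fin N) k₀)[X][X]} (hM : Irreducible M) (hM0 : 0 < M.natDegree)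
    {P : Fin r → (MvPolynomial (Fin N) k₀)[X][X]} (hP : ∀ s, ¬ M ∣ P s) :
    -- there is one polynomial `Q` over `F₀`, without root
    ∃ Q : (MvPolynomial (Fin N ⊕ Fin (m + 1)) F₀)[X], NoRoot Q ∧
      -- which does not depend on `X`, if two of the quotients are algebraically independent over `F₀`
      ((∃ i j l, AlgebraicIndependent F₀ ![w i / w l, w j / w l]) → Q.natDegree = 0) ∧
      -- such that the following holds for all composites `k = F k₀`
      ∀ (F k K₁ : Type u) [Field F] [Field k] [Field K₁] [Algebra F₀ F] [Algebra F₀ k] [Algebra F k]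
        [Algebra k₀ k] [IsScalarTower F₀ F k] [IsScalarTower F₀ k₀ k] [Algebra k K₁],
        (∃ S : Finset F, Subfield.closure (S : Set F) = ⊤) → FreeComposite F₀ k₀ F k →
        ∀ (a : Fin N → F) (b : Fin (m + 1) → F), (∀ c : F, eval c (value Q (Sum.elim a b)) ≠ 0) →
          -- and for the curve `K₁ = k(x, z)`, `M(a, x, z) = 0`, and all `g = ∏ P_s(a, x, z) ^ e_s`
          ∀ x z : K₁, Transcendental k x → IntermediateField.adjoin k {x, z} = ⊤ →
            val k a x z M = 0 → ∀ e : Fin r → ℤ,
              TwistsHaveSectionDegrees (∏ s, val k a x z (P s) ^ e s)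
                (∑ i, algebraMap F k (b i) * algebraMap k₀ k (w i)) ∧
              ((∃ i j l, AlgebraicIndependent F₀ ![w i / w l, w j / w l]) →
                TwistsSatisfySC (∏ s, val k a x z (P s) ^ e s)
                  (∑ i, algebraMap F k (b i) * algebraMap k₀ k (w i))) := by
  classical
  by_cases hB : ∃ i j l, AlgebraicIndependent F₀ ![w i / w l, w j / w l]
  · -- the hypersurface
    obtain ⟨i, j, l, hind⟩ := id hB
    obtain ⟨Ψ, hΨ, h⟩ := Pool.Agent.RP.rp_hypersurfaceM hk₀ hind hM hM0 hP
    obtain ⟨Ψ', hΨ', h'⟩ := Pool.Agent.SE.degs_hypersurfaceM Pool.Agent.SE.cfmF Pool.Agent.SE.h2F hk₀ hind hM hM0 hP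
    refine ⟨C (Ψ * Ψ'), Pool.Agent.UT.NoRoot.C (mul_ne_zero hΨ hΨ'), fun _ => natDegree_C _, ?_⟩
    intro F k K₁ _ _ _ _ _ _ _ _ _ _ hF hfree a b hab x z hx hgen hMa e
    have ha' : MvPolynomial.aeval (Sum.elim a b) (Ψ * Ψ') ≠ 0 := by
      have h1 := hab 0
      unfold value at h1
      rw [map_C, eval_C] at h1
      exact h1
    rw [map_mul] at ha'
    obtain ⟨ha1, ha2⟩ := mul_ne_zero_iff.1 ha'
    simp only [val_eq] at hMa ⊢
    refine ⟨h' F k K₁ hF hfree.1 (fun {n x} hx => hfree.2 n x hx) x z hx hgen (Sum.elim a b) ha2 hMa e,
      fun _ => ?_⟩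
    intro n j hn hj K _ _ _ _ y hgen' heq hrat s
    exact h F k K₁ hF hfree.1 (fun {n x} hx => hfree.2 n x hx) x z hx hgen (Sum.elim a b) ha1 hMa e
      n j hn hj K y hgen' heq (not_rational hrat) s
  · -- the thin set
    obtain ⟨i, l, hT⟩ := hw
    obtain ⟨Φ, hΦ, h⟩ := Pool.Agent.SE.degs_thinM Pool.Agent.SE.cfmF Pool.Agent.SE.tpF
      Pool.Agent.SE.epF hk₀ hT hM hM0 hP
    refine ⟨Φ, hΦ, fun hB' => absurd hB' hB, ?_⟩
    intro F k K₁ _ _ _ _ _ _ _ _ _ _ hF hfree a b hab x z hx hgen hMa e
    simp only [val_eq] at hMa ⊢
    refine ⟨h F k K₁ hF hfree.1 (fun {n x} hx => hfree.2 n x hx) x z hx hgen (Sum.elim a b)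
      (fun c => ?_) hMa e, fun hB' => absurd hB' hB⟩
    have h1 := hab c
    unfold value at h1
    rw [eval_map] at h1
    exact h1

end Pool.Agent.Helper10.Keep.TwistsUniformV6
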