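import Pool.Agent.Helper13.TW.FinW2

/-!
# Almost all twists of a cyclic cover have no Galois sections

Let `k` be a finitely generated field of characteristic zero, `F` a finitely generated subfield of `k`, and
`w_0, …, w_m` elements of `k` such that one of the quotients `w_i / w_j` is transcendental over `F`; for example
`1, t, …, t^m` with `t` transcendental over `F`, or a basis of a Riemann-Roch space `L(D)` of dimension at least two.
So `k` may be any finitely generated field which is not a number field, and `F` may be `ℚ`.

Let `X` be a curve over `k` with a faithful action of the group scheme `μ_n`, `n ≥ 2`, which is not rational over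
`kbar`.  The quotient is a curve with function field `K₀ / k`, the function field of `X` is `K₀(y)` with
`yⁿ = g ∈ K₀`, and the twists of `X` by the classes of `H¹(k, μ_n) = k* / k*ⁿ` are the curves `v yⁿ = g`.

We consider all elements `v = ∑ a_e w_e` of the `F`-vector space generated by the `w_e`.  For all of them outside a
thin subset (in the sense of Serre) of the affine space of dimension `m + 1` over `F`, the following holds for all
`n` and `j` such that `n` does not divide `j` and `gcd(n, ord_O(g))` does not divide `j` for all `k`-rational places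
`O` of `K₀`: the twist `v^j yⁿ = g`, and every curve over `k` which maps onto it, has no Galois section.  So all these
curves satisfy the section conjecture.

If the condition is violated at a rational place `O`, then `d = gcd(n, ord_O(g))` divides `j` and the twist has a
rational point above `O` if `g v^{-j}` divided by the power of a uniformizer is a `d`-th power there, for instance if
`d = 1`.
-/

universe u

namespace Pool.Agent.Results.MP_e66f84_ag.TwistsWithoutSections

open Polynomial Pool.Agent.Helper91.Sect Pool.Agent.SC

/-- Thin sets in the sense of Serre: a set `A` of points of the affine space `F ^ I` is thin if there are a nonzero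
polynomial `Ψ` and finitely many polynomials `Q(X)` of degree at least two, whose coefficients are polynomials on
`F ^ I`, and which are irreducible over the field of rational functions on `F ^ I`, such that for all `a ∈ A`
either `Ψ(a) = 0` or one of the polynomials `Q(a, X)` has a root in `F`. -/
def IsThin {F : Type u} [Field F] {I : Type} (A : Set (I → F)) : Prop :=
  ∃ (Ψ : MvPolynomial I F) (S : Finset (MvPolynomial I F)[X]), Ψ ≠ 0 ∧
    (∀ Q ∈ S, 2 ≤ Q.natDegree ∧ Irreducible (Q.map (algebraMap (MvPolynomial I F)
      (FractionRing (MvPolynomial I F))))) ∧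
    ∀ a ∈ A, MvPolynomial.eval a Ψ = 0 ∨ ∃ Q ∈ S, ∃ x : F, eval₂ (MvPolynomial.eval a) x Q = 0

/-- `K₀ / k` is a function field of one variable. -/
def IsCurve (k K₀ : Type u) [Field k] [Field K₀] [Algebra k K₀] : Prop :=
  ∃ x : K₀, Transcendental k x ∧ FiniteDimensional (IntermediateField.adjoin k {x}) K₀

/-- The curve over `k` with function field `K` is not rational over the algebraic closure of `k`. -/
def NotRationalCurve (k K : Type u) [Field k] [Field K] [Algebra k K] : Prop :=
  ∀ z : AlgebraicClosure K,
    Subfield.closure ({c | IsAlgebraic k c} ∪ Set.range (algebraMap K (AlgebraicClosure K))) ≠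
      Subfield.closure ({c | IsAlgebraic k c} ∪ {z})

/-- `gcd(n, ord_O(g))` does not divide `j` for all places `O` of `K₀ / k` with residue field `k`: for every such
place some divisor `δ` of `n` does not divide `j` and divides the order of `g`, that is, `g` has the same value as
some `δ`-th power `x ^ δ`. -/
def RationalOrders (k : Type u) {K₀ : Type u} [Field k] [Field K₀] [Algebra k K₀] (g : K₀)
    (n j : ℕ) : Prop :=
  ∀ O : ValuationSubring K₀, O ≠ ⊤ → (∀ c : k, algebraMap k K₀ c ∈ O) →
    (∀ z ∈ O, ∃ c : k, z - algebraMap k K₀ c ∈ O.nonunits) →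
    ∃ δ : ℕ, δ ∣ n ∧ ¬ δ ∣ j ∧ ∃ x : K₀, O.valuation g = O.valuation (x ^ δ)

/-- The twists `v^j yⁿ = g`, where `n` does not divide `j` and the condition on the orders of `g` at the rational
places is satisfied, and all curves which map onto them, have no Galois sections: there is no Galois section of
`K / k` if `K` contains `K₀` and an element `y` with `v^j yⁿ = g` and the curve with function field `K₀(y)` is not
rational over `kbar`. -/
def TwistsHaveNoSections {k K₀ : Type u} [Field k] [Field K₀] [Algebra k K₀] (g : K₀) (v : k) : Prop :=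
  ∀ n j : ℕ, 0 < n → ¬ n ∣ j → RationalOrders k g n j →
    ∀ (K : Type u) [Field K] [Algebra k K] [Algebra K₀ K] [IsScalarTower k K₀ K] (y : K),
    algebraMap k K (v ^ j) * y ^ n = algebraMap K₀ K g →
    NotRationalCurve k (IntermediateField.adjoin K₀ {y}) → IsEmpty (GaloisSection k K)

theorem closure_alg (k K : Type u) [Field k] [Field K] [Algebra k K] (A : Set (AlgebraicClosure K)) :
    Subfield.closure ({c | IsAlgebraic k c} ∪ A) =
      (IntermediateField.adjoin (kbar k K) A).toSubfield := by
  rw [← range_kbar]
  rfl

theorem not_rational {k K : Type u} [Field k] [Field K] [Algebra k K]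
    (h : NotRationalCurve k K) (z : Pool.Agent.LT.MM k K) :
    IntermediateField.adjoin (kbar k K) {z} ≠ ⊤ := by
  intro hz
  apply h ((z : Pool.Agent.LT.UU k K) : AlgebraicClosure K)
  rw [closure_alg, closure_alg]
  congr 1
  have h1 : IntermediateField.adjoin (kbar k K) (Set.range (algebraMap K (AlgebraicClosure K))) =
      (⊤ : IntermediateField (kbar k K) (Pool.Agent.LT.MM k K)).map
        ((Pool.Agent.LT.UU k K).val.comp (Pool.Agent.LT.MM k K).val) := by
    change KK k K = _
    ext w
    constructor
    · intro hw
      exact ⟨⟨⟨w, Pool.Agent.LT.KK_le_UU k K hw⟩,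
        (IntermediateField.mem_restrict (Pool.Agent.LT.KK_le_UU k K) _).2 hw⟩, trivial, rfl⟩
    · rintro ⟨m, -, rfl⟩
      exact (IntermediateField.mem_restrict (Pool.Agent.LT.KK_le_UU k K) _).1 m.2
  rw [h1, ← hz, IntermediateField.adjoin_map, Set.image_singleton]
  rfl

/-- An equality of values in terms of the order function. -/
theorem dvd_ord {k K₀ : Type u} [Field k] [CharZero k] [Field K₀] [Algebra k K₀]
    (hK₀ : IsCurve k K₀) {g : K₀} (hg : g ≠ 0) {n : ℕ} (hn : 0 < n) (O : VC.Place k K₀) {x : K₀}
    (hx : O.ring.valuation g = O.ring.valuation (x ^ n)) : (n : ℤ) ∣ VC.ord O.ring g := by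
  obtain ⟨w, hw, π, hπ⟩ := Pool.Agent.TW.exists_val hK₀ O
  have hx0 : x ≠ 0 := by
    rintro rfl
    rw [zero_pow hn.ne', map_zero] at hx
    exact hg ((map_eq_zero O.ring.valuation).1 hx)
  have hxn : x ^ n ≠ 0 := pow_ne_zero n hx0
  have hmem : ∀ z : K₀, z ∈ O.ring ↔ w z ≤ 1 := by
    intro z
    rw [← hw]
    exact Valuation.mem_valuationSubring_iff w z
  have h1 : w (g / x ^ n) ≤ 1 := by
    rw [← hmem, ← O.ring.valuation_le_one_iff, map_div₀, hx, div_self]
    exact (map_ne_zero O.ring.valuation).2 hxn
  have h2 : w (x ^ n / g) ≤ 1 := by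
    rw [← hmem, ← O.ring.valuation_le_one_iff, map_div₀, hx, div_self]
    exact (map_ne_zero O.ring.valuation).2 hxn
  have hwg : w g ≠ 0 := (map_ne_zero w).2 hg
  have hwx : w (x ^ n) ≠ 0 := (map_ne_zero w).2 hxn
  have h3 : w g = w (x ^ n) := by
    rw [map_div₀] at h1 h2
    exact le_antisymm ((div_le_one₀ (zero_lt_iff.2 hwx)).1 h1)
      ((div_le_one₀ (zero_lt_iff.2 hwg)).1 h2)
  rw [map_pow, VC.valuation_eq_exp_ord hw hπ hg,
    VC.valuation_eq_exp_ord hw hπ hx0, ← WithZero.exp_nsmul] at h3
  have h4 := WithZero.exp_injective h3
  refine ⟨VC.ord O.ring x, ?_⟩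
  rw [nsmul_eq_mul] at h4
  linarith

/-- **Almost all twists have no sections.** -/
theorem result {F k K₀ : Type u} [Field F] [CharZero F] [Field k] [Algebra F k]
    [Field K₀] [Algebra k K₀]
    -- `F` and `k` are finitely generated fields
    (hF : ∃ S : Finset F, Subfield.closure (S : Set F) = ⊤)
    (hk : ∃ S : Finset k, Subfield.closure (S : Set k) = ⊤)
    -- the quotient of two of the `w_e` is transcendental over `F`
    {m : ℕ} {w : Fin (m + 1) → k} {i j : Fin (m + 1)} (hw : Transcendental F (w i / w j))
    -- an arbitrary cyclic cover of an arbitrary curve over `k`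
    (hK₀ : IsCurve k K₀) {g : K₀} (hg : g ≠ 0) :
    -- the set of the exceptional twists is thin
    IsThin {a : Fin (m + 1) → F |
      ¬ TwistsHaveNoSections g (∑ e, algebraMap F k (a e) * w e)} := by
  have hk0 : CharZero k := charZero_of_injective_algebraMap (algebraMap F k).injective
  refine UL.IsThin.mono (Pool.Agent.TW.twists_thin_any hF hk hw hK₀ hg) ?_
  intro a ha hgood
  apply ha
  intro n j hn hj hR K _ _ _ _ y heq hrat
  refine Pool.Agent.TW.isEmpty_of_noSecTwist hgood hn hj (fun O hO => ?_) K y heq
    (not_rational hrat)
  obtain ⟨δ, hδn, hδj, x, hx⟩ := hR O.ring O.ne_top O.algebraMap_mem hO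
  exact ⟨δ, hδn, hδj, dvd_ord hK₀ hg (Nat.pos_of_dvd_of_pos hδn hn) O hx⟩

end Pool.Agent.Results.MP_e66f84_ag.TwistsWithoutSections
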