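import Pool.Agent.Helper13.HZ.U6

/-!
# The section conjecture for superelliptic curves outside a hypersurface

Let `r ≥ 2`, `d ≥ 3` and `m ≥ 1` be integers.  There is one nonzero polynomial `Ψ` with integral coefficients such
that for every finitely generated field `F` of characteristic zero, for `k = F(t₁, …, t_r)` and for every
polynomial `f = ∑_{i ≤ d} a_i x^i` whose coefficients `a_i` are polynomials in `t₁, …, t_r` over `F` of degree at most
`m` and whose vector of coefficients is not a zero of `Ψ`: `f` is separable of degree `d`, and

* for all `n` which are not prime to `d` the superelliptic curve `yⁿ = f(x)` over `k`, and every curve which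
  maps onto it, has no Galois section (so it satisfies the section conjecture);
* for all `n ≥ 2` which do not divide `m` every Galois section of `yⁿ = f(x)` is geometric.

So for all these `f` the curve `yⁿ = f(x)` satisfies the section conjecture for all `n`, except possibly for those `n`
which are prime to `d` and divide `m`.  For example the hyperelliptic curves `y² = f(x)` with `d` even are covered, for
every `m`.
-/

universe u

namespace Pool.Agent.Results.MP_e66f84_ag.ZariskiOpen

open Polynomial Pool.Agent.Helper91.Sect Pool.Agent.SC

/-- The exponents of the monomials of degree at most `m` in `r` variables. -/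
abbrev Exponents (r m : ℕ) : Type := {p : Fin r → Fin (m + 1) // ∑ i, (p i : ℕ) ≤ m}

/-- The value at `t` of the polynomial with coefficients `a`. -/
noncomputable def value {F k : Type u} [Field F] [Field k] [Algebra F k] {r m : ℕ} (t : Fin r → k)
    (a : Exponents r m → F) : k :=
  ∑ p : Exponents r m, algebraMap F k (a p) * ∏ i, t i ^ (p.1 i : ℕ)

/-- The polynomial `∑_{i ≤ d} a_i(t) x^i`. -/
noncomputable def curve {F k : Type u} [Field F] [Field k] [Algebra F k] {r m d : ℕ}
    (t : Fin r → k) (a : Fin (d + 1) × Exponents r m → F) : k[X] :=
  ∑ i : Fin (d + 1), C (value t fun p => a (i, p)) * X ^ (i : ℕ)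

/-- For all `n` which are not prime to `d` no curve which maps onto `yⁿ = f(x)` has a Galois section:
there is no Galois section of `K / k` if `K` contains elements `x` and `y` with `x` transcendental over `k`
and `yⁿ = f(x)`. -/
def NoSections {k : Type u} [Field k] (d : ℕ) (f : k[X]) : Prop :=
  ∀ n : ℕ, ¬ n.Coprime d →
    ∀ (K : Type u) [Field K] [Algebra k K] (x y : K), Transcendental k x → y ^ n = aeval x f →
    IsEmpty (GaloisSection k K)

/-- For all `n ≥ 2` which do not divide `m` the curve `yⁿ = f(x)` satisfies the section conjecture: if `K` is its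
function field, every Galois section of `K / k` is geometric. -/
def SatisfiesSC {k : Type u} [Field k] (m : ℕ) (f : k[X]) : Prop :=
  ∀ n : ℕ, 2 ≤ n → ¬ n ∣ m →
    ∀ (K : Type u) [Field K] [Algebra k K] (x y : K), Transcendental k x →
    IntermediateField.adjoin k {x, y} = ⊤ → y ^ n = aeval x f →
    ∀ s : GaloisSection k K, IsGeometric s

/-- **The section conjecture for the superelliptic curves outside a hypersurface.** -/
theorem result {r d m : ℕ} (hr : 2 ≤ r) (hd : 3 ≤ d) (hm : 1 ≤ m) :
    -- there is a nonzero polynomial `Ψ` over the integers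
    ∃ Ψ : MvPolynomial (Fin (d + 1) × Exponents r m) ℤ, Ψ ≠ 0 ∧
      -- such that for all finitely generated fields `F` and for `k = F(t₁, …, t_r)`
      ∀ (F k : Type u) [Field F] [CharZero F] [Field k] [Algebra F k],
        (∃ S : Finset F, Subfield.closure (S : Set F) = ⊤) →
        ∀ t : Fin r → k, AlgebraicIndependent F t →
        IntermediateField.adjoin F (Set.range t) = ⊤ →
        -- and for all coefficient vectors `a` over `F` which are not zeros of `Ψ`
        ∀ a : Fin (d + 1) × Exponents r m → F, MvPolynomial.aeval a Ψ ≠ 0 →
          (curve t a).natDegree = d ∧ (curve t a).Separable ∧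
            NoSections d (curve t a) ∧ SatisfiesSC m (curve t a) := by
  obtain ⟨r, rfl⟩ := Nat.exists_eq_add_of_le' hr
  obtain ⟨Ψ, h₁, h₂⟩ := Pool.Agent.HZ.no_sections_F.{u} r hd hm
  refine ⟨Ψ, h₁, fun F k _ _ _ _ hF t ht htop a ha => ?_⟩
  obtain ⟨hA, hB⟩ := h₂ F k hF t ht htop a ha
  exact ⟨hA.1, hA.2.1, hA.2.2, hB.2.2⟩

end Pool.Agent.Results.MP_e66f84_ag.ZariskiOpen
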